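import Mathlib

/-! Framework: the slide graph of maximum irredundant sets of the complement of a graph `H`
whose irredundant sets have at most three vertices. -/

namespace Pool.Agent.KS6_40.IR

variable {V : Type} [Fintype V] [DecidableEq V]

def Irr (G : SimpleGraph V) (S : Finset V) : Prop :=
  ∀ v ∈ S, ∃ w, (w = v ∨ G.Adj v w) ∧ ∀ u ∈ S, u ≠ v → ¬ (w = u ∨ G.Adj u w)

def IsIRSet (G : SimpleGraph V) (S : Finset V) : Prop :=
  Irr G S ∧ ∀ T : Finset V, Irr G T → T.card ≤ S.card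

def Slide (G : SimpleGraph V) (D D' : Finset V) : Prop :=
  ∃ v ∈ D, ∃ v' ∈ D', G.Adj v v' ∧ D' = insert v' (D.erase v)

def irGraph (G : SimpleGraph V) : SimpleGraph {S : Finset V // IsIRSet G S} :=
  SimpleGraph.fromRel (fun D D' => Slide G D.1 D'.1)

omit [Fintype V] in
lemma irr_compl (H : SimpleGraph V) (S : Finset V) :
    Irr Hᶜ S ↔ ∀ v ∈ S, ∃ w, ¬ H.Adj v w ∧ ∀ u ∈ S, u ≠ v → H.Adj u w := by
  have key : ∀ v w : V, (w = v ∨ Hᶜ.Adj v w) ↔ ¬ H.Adj v w := by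
    intro v w
    rw [SimpleGraph.compl_adj]
    constructor
    · rintro (rfl | ⟨_, h⟩)
      · exact H.irrefl
      · exact h
    · intro h
      by_cases hvw : w = v
      · exact Or.inl hvw
      · exact Or.inr ⟨fun h' => hvw h'.symm, h⟩
  unfold Irr
  simp only [key, not_not]

/-- the pair conditions for an irredundant triple -/
def Tri (H : SimpleGraph V) (x y z : V) : Prop :=
  (∃ w, H.Adj y w ∧ H.Adj z w ∧ ¬ H.Adj x w) ∧
  (∃ w, H.Adj x w ∧ H.Adj z w ∧ ¬ H.Adj y w) ∧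
  (∃ w, H.Adj x w ∧ H.Adj y w ∧ ¬ H.Adj z w)

omit [Fintype V] [DecidableEq V] in
lemma Tri.ne {H : SimpleGraph V} {x y z : V} (h : Tri H x y z) : x ≠ y ∧ x ≠ z ∧ y ≠ z := by
  obtain ⟨⟨w1, a1, b1, c1⟩, ⟨w2, a2, b2, c2⟩, ⟨w3, a3, b3, c3⟩⟩ := h
  refine ⟨?_, ?_, ?_⟩
  · rintro rfl; exact c1 a1
  · rintro rfl; exact c1 b1
  · rintro rfl; exact c2 b2

omit [Fintype V] in
lemma tri_of_irr {H : SimpleGraph V} {S : Finset V} (h : Irr Hᶜ S) {x y z : V}
    (hx : x ∈ S) (hy : y ∈ S) (hz : z ∈ S) (hxy : x ≠ y) (hxz : x ≠ z) (hyz : y ≠ z) :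
    Tri H x y z := by
  rw [irr_compl] at h
  obtain ⟨w1, a1, b1⟩ := h x hx
  obtain ⟨w2, a2, b2⟩ := h y hy
  obtain ⟨w3, a3, b3⟩ := h z hz
  exact ⟨⟨w1, b1 y hy hxy.symm, b1 z hz hxz.symm, a1⟩,
    ⟨w2, b2 x hx hxy, b2 z hz hyz.symm, a2⟩,
    ⟨w3, b3 x hx hxz, b3 y hy hyz, a3⟩⟩

omit [Fintype V] in
lemma irr_of_tri {H : SimpleGraph V} {x y z : V} (h : Tri H x y z) : Irr Hᶜ ({x, y, z} : Finset V) := by
  rw [irr_compl]
  obtain ⟨⟨w1, a1, b1, c1⟩, ⟨w2, a2, b2, c2⟩, ⟨w3, a3, b3, c3⟩⟩ := h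
  intro v hv
  simp only [Finset.mem_insert, Finset.mem_singleton] at hv
  rcases hv with rfl | rfl | rfl
  · refine ⟨w1, c1, ?_⟩
    intro u hu hne
    simp only [Finset.mem_insert, Finset.mem_singleton] at hu
    rcases hu with rfl | rfl | rfl
    · exact absurd rfl hne
    · exact a1
    · exact b1
  · refine ⟨w2, c2, ?_⟩
    intro u hu hne
    simp only [Finset.mem_insert, Finset.mem_singleton] at hu
    rcases hu with rfl | rfl | rfl
    · exact a2
    · exact absurd rfl hne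
    · exact b2
  · refine ⟨w3, c3, ?_⟩
    intro u hu hne
    simp only [Finset.mem_insert, Finset.mem_singleton] at hu
    rcases hu with rfl | rfl | rfl
    · exact a3
    · exact b3
    · exact absurd rfl hne

omit [Fintype V] in
lemma card_le_three {H : SimpleGraph V}
    (h4 : ∀ a b c d : V, c ≠ d → Tri H a b c → Tri H a b d → Tri H a c d → False)
    {S : Finset V} (h : Irr Hᶜ S) : S.card ≤ 3 := by
  by_contra hc
  push Not at hc
  obtain ⟨T, hT, hcard⟩ := Finset.exists_subset_card_eq (show 4 ≤ S.card by omega)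
  obtain ⟨a, b, c, d, hab, hac, had, hbc, hbd, hcd, rfl⟩ := Finset.card_eq_four.mp hcard
  have ha : a ∈ S := hT (by simp)
  have hb : b ∈ S := hT (by simp)
  have hc' : c ∈ S := hT (by simp)
  have hd : d ∈ S := hT (by simp)
  exact h4 a b c d hcd (tri_of_irr h ha hb hc' hab hac hbc) (tri_of_irr h ha hb hd hab had hbd)
    (tri_of_irr h ha hc' hd hac had hcd)

theorem main {H : SimpleGraph V} {ι : Type} (P : SimpleGraph ι) (i0 : ι) (F : ι → Finset V)
    (hinj : Function.Injective F)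
    (hcard : ∀ i, (F i).card = 3)
    (hirr : ∀ i, Irr Hᶜ (F i))
    (hcls : ∀ x y z, Tri H x y z → ∃ i, F i = {x, y, z})
    (h3 : ∀ S, Irr Hᶜ S → S.card ≤ 3)
    (hadj : ∀ i j, i ≠ j → (P.Adj i j ↔ (Slide Hᶜ (F i) (F j) ∨ Slide Hᶜ (F j) (F i)))) :
    Nonempty (P ≃g irGraph Hᶜ) := by
  have hF : ∀ i, IsIRSet Hᶜ (F i) := fun i => ⟨hirr i, fun T hT => by rw [hcard i]; exact h3 T hT⟩
  let f : ι → {S : Finset V // IsIRSet Hᶜ S} := fun i => ⟨F i, hF i⟩
  have hf : Function.Bijective f := by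
    constructor
    · intro i j h
      exact hinj (congrArg Subtype.val h)
    · rintro ⟨S, hS, hm⟩
      have h1 : S.card = 3 := le_antisymm (h3 S hS) ((hcard i0) ▸ hm (F i0) (hirr i0))
      obtain ⟨x, y, z, hxy, hxz, hyz, rfl⟩ := Finset.card_eq_three.mp h1
      obtain ⟨i, hi⟩ := hcls x y z (tri_of_irr hS (by simp) (by simp) (by simp) hxy hxz hyz)
      exact ⟨i, Subtype.ext hi⟩
  refine ⟨⟨Equiv.ofBijective f hf, ?_⟩⟩
  intro i j
  show (irGraph Hᶜ).Adj (f i) (f j) ↔ P.Adj i j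
  unfold irGraph
  rw [SimpleGraph.fromRel_adj]
  by_cases hij : i = j
  · subst hij; simp
  · rw [hadj i j hij]
    constructor
    · rintro ⟨_, h⟩; exact h
    · intro h
      exact ⟨fun h' => hij (hf.1 h'), h⟩

omit [Fintype V] in
/-- a slide between two triples keeps two of the vertices -/
lemma slide_two {G : SimpleGraph V} {S S' : Finset V} (hS : S.card = 3) (h : Slide G S S') :
    ∃ p q, p ≠ q ∧ p ∈ S ∧ q ∈ S ∧ p ∈ S' ∧ q ∈ S' := by
  obtain ⟨v, hv, v', hv', _, hE⟩ := h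
  have h2 : (S.erase v).card = 2 := by rw [Finset.card_erase_of_mem hv, hS]
  obtain ⟨p, q, hpq, hE2⟩ := Finset.card_eq_two.mp h2
  have hp : p ∈ S.erase v := by rw [hE2]; simp
  have hq : q ∈ S.erase v := by rw [hE2]; simp
  refine ⟨p, q, hpq, Finset.mem_of_mem_erase hp, Finset.mem_of_mem_erase hq, ?_, ?_⟩
  · rw [hE]; exact Finset.mem_insert_of_mem hp
  · rw [hE]; exact Finset.mem_insert_of_mem hq

end Pool.Agent.KS6_40.IR
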