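import Pool.Agent.KS6_40.IR.Basic

namespace Pool.Agent.KS6_40.IR

def DD : Finset ℤ := {1, -1, 5, -5}

def PL : List (ℤ × ℤ) := [(2, 4), (4, 2), (-2, 2), (2, -2), (-2, -4), (-4, -2)]

lemma DD_neg : ∀ d ∈ DD, -d ∈ DD := by decide

lemma DD_odd : ∀ d ∈ DD, d = 2 * (d / 2) + 1 ∧ -5 ≤ d ∧ d ≤ 5 := by decide

lemma key : ∀ d ∈ DD, ∀ d' ∈ DD, ∀ e ∈ DD, ∀ e' ∈ DD, ∀ f ∈ DD, ∀ f' ∈ DD,
    d - d' + f = e - e' + f' → d - d' ≠ 0 → e - e' ≠ 0 → d - d' ≠ e - e' →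
    d - (e - e') ∉ DD → e - (d - d') ∉ DD → (d - d') + f ∉ DD → (d - d', e - e') ∈ PL := by
  decide +kernel

/-- relation of the circulant graph with jumps one and five -/
def R (n : ℕ) (x y : ZMod n) : Prop := ∃ d ∈ DD, y = x + (d : ℤ)

lemma R.symm {n : ℕ} {x y : ZMod n} (h : R n x y) : R n y x := by
  obtain ⟨d, hd, rfl⟩ := h
  exact ⟨-d, DD_neg d hd, by push_cast; ring⟩

section
variable {n : ℕ} (hn : 17 ≤ n) (ho : Odd n)
include hn

lemma lift1 {k : ℤ} (h : ((k : ℤ) : ZMod n) = 0) (h1 : -17 < k) (h2 : k < 17) : k = 0 := by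
  rw [ZMod.intCast_zmod_eq_zero_iff_dvd] at h
  exact Int.eq_zero_of_abs_lt_dvd h (by rw [abs_lt]; constructor <;> omega)

include ho

lemma lift2 {k : ℤ} (h : ((k : ℤ) : ZMod n) = 0) (h0 : 2 * (k / 2) = k)
    (h1 : -34 < k) (h2 : k < 34) : k = 0 := by
  rw [ZMod.intCast_zmod_eq_zero_iff_dvd] at h
  have h2' : (2 : ℤ) ∣ k := ⟨k / 2, h0.symm⟩
  have hcop : IsCoprime (2 : ℤ) (n : ℤ) := by
    obtain ⟨r, hr⟩ := ho
    exact ⟨-r, 1, by rw [hr]; push_cast; ring⟩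
  have h3 : (2 * n : ℤ) ∣ k := hcop.mul_dvd h2' h
  exact Int.eq_zero_of_abs_lt_dvd h3 (by rw [abs_lt]; constructor <;> omega)

lemma eq_of_cast {x : ZMod n} {a b : ℤ} (h : x + (a : ℤ) = x + (b : ℤ))
    (h0 : 2 * ((a - b) / 2) = a - b) (h1 : -34 < a - b) (h2 : a - b < 34) : a = b := by
  have h3 : (((a - b : ℤ)) : ZMod n) = 0 := by
    push_cast
    have := add_left_cancel h
    rw [this]; ring
  have := lift2 hn ho h3 h0 h1 h2
  omega

/-- triples with pairwise witnesses are three consecutive terms of an even progression -/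
lemma circ_class {x y z w1 w2 w3 : ZMod n} (hxy : x ≠ y) (hxz : x ≠ z) (hyz : y ≠ z)
    (h1y : R n y w1) (h1z : R n z w1) (h1x : ¬ R n x w1)
    (h2x : R n x w2) (h2z : R n z w2) (h2y : ¬ R n y w2)
    (h3x : R n x w3) (h3y : R n y w3) (h3z : ¬ R n z w3) :
    ∃ p ∈ PL, y = x + (p.1 : ℤ) ∧ z = x + (p.2 : ℤ) := by
  obtain ⟨d, hd, e3x⟩ := h3x
  obtain ⟨d', hd', e3y⟩ := h3y
  obtain ⟨e, he, e2x⟩ := h2x
  obtain ⟨e', he', e2z⟩ := h2z
  obtain ⟨f, hf, e1y⟩ := h1y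
  obtain ⟨f', hf', e1z⟩ := h1z
  have hy : y = x + ((d - d' : ℤ)) := by
    push_cast
    have : x + (d : ℤ) = y + (d' : ℤ) := by rw [← e3x, ← e3y]
    linear_combination -this
  have hz : z = x + ((e - e' : ℤ)) := by
    push_cast
    have : x + (e : ℤ) = z + (e' : ℤ) := by rw [← e2x, ← e2z]
    linear_combination -this
  obtain ⟨od, bd1, bd2⟩ := DD_odd d hd
  obtain ⟨od', bd1', bd2'⟩ := DD_odd d' hd'
  obtain ⟨oe, be1, be2⟩ := DD_odd e he
  obtain ⟨oe', be1', be2'⟩ := DD_odd e' he'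
  obtain ⟨of, bf1, bf2⟩ := DD_odd f hf
  obtain ⟨of', bf1', bf2'⟩ := DD_odd f' hf'
  have hw1 : w1 = x + ((d - d' + f : ℤ)) := by
    rw [e1y, hy]; push_cast; ring
  have hw1' : w1 = x + ((e - e' + f' : ℤ)) := by
    rw [e1z, hz]; push_cast; ring
  have heq : d - d' + f = e - e' + f' :=
    eq_of_cast hn ho (x := x) (by rw [← hw1, ← hw1']) (by omega) (by omega) (by omega)
  refine ⟨(d - d', e - e'), key d hd d' hd' e he e' he' f hf f' hf' heq ?_ ?_ ?_ ?_ ?_ ?_, hy, hz⟩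
  · intro h0; apply hxy; rw [hy, h0]; simp
  · intro h0; apply hxz; rw [hz, h0]; simp
  · intro h0; apply hyz; rw [hy, hz, h0]
  · intro hm; apply h3z; exact ⟨_, hm, by rw [e3x, hz]; push_cast; ring⟩
  · intro hm; apply h2y; exact ⟨_, hm, by rw [e2x, hy]; push_cast; ring⟩
  · intro hm; apply h1x; exact ⟨_, hm, hw1⟩

end

/-- three consecutive terms -/
def TS (n : ℕ) (i : ZMod n) : Finset (ZMod n) := {i, i + 2, i + 4}

lemma mem_TS {n : ℕ} {i x : ZMod n} :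
    x ∈ TS n i ↔ ∃ a ∈ ({0, 2, 4} : Finset ℤ), x = i + (a : ℤ) := by
  unfold TS
  simp only [Finset.mem_insert, Finset.mem_singleton]
  constructor
  · rintro (rfl | rfl | rfl)
    · exact ⟨0, by simp, by simp⟩
    · exact ⟨2, by simp, by simp⟩
    · exact ⟨4, by simp, by simp⟩
  · rintro ⟨a, ha, rfl⟩
    rcases ha with rfl | rfl | rfl <;> simp

lemma key2 : ∀ a ∈ ({0, 2, 4} : Finset ℤ), ∀ a' ∈ ({0, 2, 4} : Finset ℤ),
    ∀ b ∈ ({0, 2, 4} : Finset ℤ), ∀ b' ∈ ({0, 2, 4} : Finset ℤ), a ≠ b → a - a' = b - b' →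
    a - a' = 0 ∨ a - a' = 2 ∨ a - a' = -2 := by decide

lemma key2b : ∀ a ∈ ({0, 2, 4} : Finset ℤ), 2 * (a / 2) = a ∧ 0 ≤ a ∧ a ≤ 4 := by decide

lemma key3 : ∀ p ∈ PL, ∀ q ∈ PL, ∀ r ∈ PL, p.1 = q.1 → p.2 = r.1 → q.2 = r.2 → p.2 = q.2 := by
  decide +kernel

lemma PL_bd : ∀ p ∈ PL, 2 * (p.1 / 2) = p.1 ∧ -4 ≤ p.1 ∧ p.1 ≤ 4 ∧ 2 * (p.2 / 2) = p.2 ∧ -4 ≤ p.2 ∧
    p.2 ≤ 4 := by decide

lemma class_TS {n : ℕ} {x y z : ZMod n} {p : ℤ × ℤ} (hp : p ∈ PL) (hy : y = x + (p.1 : ℤ))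
    (hz : z = x + (p.2 : ℤ)) : ∃ i, TS n i = {x, y, z} := by
  subst hy; subst hz
  simp only [PL, List.mem_cons, List.not_mem_nil, or_false] at hp
  rcases hp with rfl | rfl | rfl | rfl | rfl | rfl
  · refine ⟨x, ?_⟩
    ext t; simp only [TS, Finset.mem_insert, Finset.mem_singleton]; push_cast; tauto
  · refine ⟨x, ?_⟩
    ext t; simp only [TS, Finset.mem_insert, Finset.mem_singleton]; push_cast; tauto
  · refine ⟨x + ((-2 : ℤ)), ?_⟩
    have e1 : x + ((-2 : ℤ) : ZMod n) + 2 = x := by push_cast; ring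
    have e2 : x + ((-2 : ℤ) : ZMod n) + 4 = x + ((2 : ℤ) : ZMod n) := by push_cast; ring
    ext t; simp only [TS, Finset.mem_insert, Finset.mem_singleton, e1, e2]; tauto
  · refine ⟨x + ((-2 : ℤ)), ?_⟩
    have e1 : x + ((-2 : ℤ) : ZMod n) + 2 = x := by push_cast; ring
    have e2 : x + ((-2 : ℤ) : ZMod n) + 4 = x + ((2 : ℤ) : ZMod n) := by push_cast; ring
    ext t; simp only [TS, Finset.mem_insert, Finset.mem_singleton, e1, e2]; tauto
  · refine ⟨x + ((-4 : ℤ)), ?_⟩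
    have e1 : x + ((-4 : ℤ) : ZMod n) + 2 = x + ((-2 : ℤ) : ZMod n) := by push_cast; ring
    have e2 : x + ((-4 : ℤ) : ZMod n) + 4 = x := by push_cast; ring
    ext t; simp only [TS, Finset.mem_insert, Finset.mem_singleton, e1, e2]; tauto
  · refine ⟨x + ((-4 : ℤ)), ?_⟩
    have e1 : x + ((-4 : ℤ) : ZMod n) + 2 = x + ((-2 : ℤ) : ZMod n) := by push_cast; ring
    have e2 : x + ((-4 : ℤ) : ZMod n) + 4 = x := by push_cast; ring
    ext t; simp only [TS, Finset.mem_insert, Finset.mem_singleton, e1, e2]; tauto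

section
variable {n : ℕ} (hn : 17 ≤ n) (ho : Odd n)
include hn

lemma ne_cast {x : ZMod n} {a b : ℤ} (h : a ≠ b) (h1 : -17 < a - b) (h2 : a - b < 17) :
    x + (a : ℤ) ≠ x + (b : ℤ) := by
  intro h3
  have h4 : (((a - b : ℤ)) : ZMod n) = 0 := by
    push_cast
    have := add_left_cancel h3
    rw [this]; ring
  have := lift1 hn h4 h1 h2
  omega

lemma TS_card (i : ZMod n) : (TS n i).card = 3 := by
  have h1 : i ≠ i + 2 := by
    have := ne_cast hn (x := i) (a := 0) (b := 2) (by norm_num) (by norm_num) (by norm_num)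
    simpa using this
  have h2 : i ≠ i + 4 := by
    have := ne_cast hn (x := i) (a := 0) (b := 4) (by norm_num) (by norm_num) (by norm_num)
    simpa using this
  have h3 : i + 2 ≠ i + 4 := by
    have := ne_cast hn (x := i) (a := 2) (b := 4) (by norm_num) (by norm_num) (by norm_num)
    simpa using this
  exact Finset.card_eq_three.mpr ⟨_, _, _, h1, h2, h3, rfl⟩

lemma TS_share {i j : ZMod n} {p q : ZMod n} (hpq : p ≠ q) (hp : p ∈ TS n i) (hq : q ∈ TS n i)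
    (hp' : p ∈ TS n j) (hq' : q ∈ TS n j) : j = i ∨ j = i + 2 ∨ j = i - 2 := by
  rw [mem_TS] at hp hq hp' hq'
  obtain ⟨a, ha, ep⟩ := hp
  obtain ⟨b, hb, eq⟩ := hq
  obtain ⟨a', ha', ep'⟩ := hp'
  obtain ⟨b', hb', eq'⟩ := hq'
  obtain ⟨_, ba1, ba2⟩ := key2b a ha
  obtain ⟨_, bb1, bb2⟩ := key2b b hb
  obtain ⟨_, ba1', ba2'⟩ := key2b a' ha'
  obtain ⟨_, bb1', bb2'⟩ := key2b b' hb'
  have hj : j = i + ((a - a' : ℤ)) := by
    push_cast
    have : i + (a : ℤ) = j + (a' : ℤ) := by rw [← ep, ← ep']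
    linear_combination -this
  have hj' : j = i + ((b - b' : ℤ)) := by
    push_cast
    have : i + (b : ℤ) = j + (b' : ℤ) := by rw [← eq, ← eq']
    linear_combination -this
  have hab : a ≠ b := by rintro rfl; exact hpq (by rw [ep, eq])
  have he : a - a' = b - b' := by
    by_contra hne
    exact ne_cast hn (x := i) hne (by omega) (by omega) (by rw [← hj, ← hj'])
  rcases key2 a ha a' ha' b hb b' hb' hab he with h | h | h
  · left; rw [hj, h]; simp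
  · right; left; rw [hj, h]; push_cast; ring
  · right; right; rw [hj, h]; push_cast; ring

include ho

lemma TS_inj {i j : ZMod n} (h : TS n i = TS n j) : i = j := by
  have h1 : i ∈ TS n j := by rw [← h]; simp [TS]
  have h2 : i + 2 ∈ TS n j := by rw [← h]; simp [TS]
  have h3 : i + 4 ∈ TS n j := by rw [← h]; simp [TS]
  have n1 : i ≠ i + 2 := by
    have := ne_cast hn (x := i) (a := 0) (b := 2) (by norm_num) (by norm_num) (by norm_num)
    simpa using this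
  rcases TS_share hn (i := i) n1 (by simp [TS]) (by simp [TS]) h1 h2 with e | e | e
  · exact e.symm
  · exfalso
    rw [e, mem_TS] at h1
    obtain ⟨a, ha, h1⟩ := h1
    obtain ⟨_, ba1, ba2⟩ := key2b a ha
    have := ne_cast hn (x := i) (a := 0) (b := 2 + a) (by omega) (by omega) (by omega)
    apply this
    push_cast
    linear_combination h1
  · exfalso
    rw [e, mem_TS] at h3
    obtain ⟨a, ha, h3⟩ := h3
    obtain ⟨_, ba1, ba2⟩ := key2b a ha
    have := ne_cast hn (x := i) (a := 4) (b := a - 2) (by omega) (by omega) (by omega)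
    apply this
    push_cast
    linear_combination h3

lemma PL4 {a b c d : ZMod n} {p q r : ℤ × ℤ} (hp : p ∈ PL) (hq : q ∈ PL) (hr : r ∈ PL)
    (h1 : b = a + (p.1 : ℤ)) (h2 : c = a + (p.2 : ℤ)) (h3 : b = a + (q.1 : ℤ))
    (h4 : d = a + (q.2 : ℤ)) (h5 : c = a + (r.1 : ℤ)) (h6 : d = a + (r.2 : ℤ)) : c = d := by
  obtain ⟨p1, p2, p3, p4, p5, p6⟩ := PL_bd p hp
  obtain ⟨q1, q2, q3, q4, q5, q6⟩ := PL_bd q hq
  obtain ⟨r1, r2, r3, r4, r5, r6⟩ := PL_bd r hr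
  have e1 : p.1 = q.1 :=
    eq_of_cast hn ho (x := a) (by rw [← h1, ← h3]) (by omega) (by omega) (by omega)
  have e2 : p.2 = r.1 :=
    eq_of_cast hn ho (x := a) (by rw [← h2, ← h5]) (by omega) (by omega) (by omega)
  have e3 : q.2 = r.2 :=
    eq_of_cast hn ho (x := a) (by rw [← h4, ← h6]) (by omega) (by omega) (by omega)
  rw [h2, h4, key3 p hp q hq r hr e1 e2 e3]

lemma half {k l : ZMod n} (h : 2 * k = 2 * l) : k = l := by
  obtain ⟨r, hr⟩ := ho
  have h1 : ((r : ZMod n) + 1) * 2 = 1 := by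
    have h2 : (((2 * r + 1 : ℕ)) : ZMod n) = 0 := by
      rw [← hr]; exact ZMod.natCast_self n
    push_cast at h2
    linear_combination h2
  calc k = ((r : ZMod n) + 1) * (2 * k) := by rw [← mul_assoc, h1, one_mul]
    _ = ((r : ZMod n) + 1) * (2 * l) := by rw [h]
    _ = l := by rw [← mul_assoc, h1, one_mul]

end

end Pool.Agent.KS6_40.IR
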