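import Pool.Agent.KS6_40.IR.Circ

namespace Pool.Agent.KS6_40.IR

section
variable {n : ℕ} (hn : 17 ≤ n) (ho : Odd n)
include hn

lemma R_irrefl (x : ZMod n) : ¬ R n x x := by
  rintro ⟨d, hd, h⟩
  obtain ⟨h1, h2, h3⟩ := DD_odd d hd
  have : ((d : ℤ) : ZMod n) = 0 := by linear_combination -h
  have := lift1 hn this (by omega) (by omega)
  omega

lemma not_R_six (x : ZMod n) : ¬ R n x (x + 6) := by
  rintro ⟨d, hd, h⟩
  obtain ⟨h1, h2, h3⟩ := DD_odd d hd
  exact ne_cast hn (x := x) (a := 6) (b := d) (by omega) (by omega) (by omega) (by push_cast; exact h)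

/-- the circulant graph -/
def HC (n : ℕ) (hn : 17 ≤ n) : SimpleGraph (ZMod n) where
  Adj x y := R n x y
  symm := ⟨fun _ _ h => h.symm⟩
  loopless := ⟨fun x => R_irrefl hn x⟩

lemma TS_step (i : ZMod n) : TS n (i + 2) = insert (i + 6) ((TS n i).erase i) := by
  have h1 : i ≠ i + 2 := by
    have := ne_cast hn (x := i) (a := 0) (b := 2) (by norm_num) (by norm_num) (by norm_num)
    simpa using this
  have h2 : i ≠ i + 4 := by
    have := ne_cast hn (x := i) (a := 0) (b := 4) (by norm_num) (by norm_num) (by norm_num)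
    simpa using this
  have e : (TS n i).erase i = {i + 2, i + 4} := by
    unfold TS
    rw [Finset.erase_insert]
    simp only [Finset.mem_insert, Finset.mem_singleton, not_or]
    exact ⟨h1, h2⟩
  rw [e]
  ext t
  simp only [TS, Finset.mem_insert, Finset.mem_singleton]
  have e1 : i + 2 + 2 = i + 4 := by ring
  have e2 : i + 2 + 4 = i + 6 := by ring
  rw [e1, e2]
  tauto

lemma TS_step' (i : ZMod n) : TS n i = insert i ((TS n (i + 2)).erase (i + 6)) := by
  have h1 : i + 6 ≠ i + 2 := by
    have := ne_cast hn (x := i) (a := 6) (b := 2) (by norm_num) (by norm_num) (by norm_num)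
    simpa using this
  have h2 : i + 6 ≠ i + 4 := by
    have := ne_cast hn (x := i) (a := 6) (b := 4) (by norm_num) (by norm_num) (by norm_num)
    simpa using this
  have e : (TS n (i + 2)).erase (i + 6) = {i + 2, i + 4} := by
    have e1 : i + 2 + 2 = i + 4 := by ring
    have e2 : i + 2 + 4 = i + 6 := by ring
    ext t
    simp only [TS, Finset.mem_insert, Finset.mem_singleton, Finset.mem_erase, e1, e2]
    constructor
    · rintro ⟨h, h' | h' | h'⟩
      · exact Or.inl h'
      · exact Or.inr h'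
      · exact absurd h' h
    · rintro (rfl | rfl)
      · exact ⟨h1.symm, Or.inl rfl⟩
      · exact ⟨h2.symm, Or.inr (Or.inl rfl)⟩
  rw [e]
  rfl

include ho

lemma int_cls {x y z : ZMod n} (h : Tri (HC n hn) x y z) :
    ∃ p ∈ PL, y = x + (p.1 : ℤ) ∧ z = x + (p.2 : ℤ) := by
  obtain ⟨hxy, hxz, hyz⟩ := h.ne
  obtain ⟨⟨w1, a1, b1, c1⟩, ⟨w2, a2, b2, c2⟩, ⟨w3, a3, b3, c3⟩⟩ := h
  exact circ_class hn ho hxy hxz hyz a1 b1 c1 a2 b2 c2 a3 b3 c3

omit ho in
lemma R_cast {x : ZMod n} {d : ℤ} (hd : d ∈ DD) : R n x (x + (d : ℤ)) := ⟨d, hd, rfl⟩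

lemma not_R_cast {x : ZMod n} {k : ℤ} (hk : k ∉ DD) (h1 : 2 * (k / 2) + 1 = k) (h2 : -20 < k)
    (h3 : k < 20) : ¬ R n x (x + (k : ℤ)) := by
  rintro ⟨d, hd, h⟩
  obtain ⟨b1, b2, b3⟩ := DD_odd d hd
  have := eq_of_cast hn ho h (by omega) (by omega) (by omega)
  exact hk (this ▸ hd)

lemma HC_tri (i : ZMod n) : Tri (HC n hn) i (i + 2) (i + 4) := by
  refine ⟨⟨i + 3, ?_, ?_, ?_⟩, ⟨i - 1, ?_, ?_, ?_⟩, ⟨i + 1, ?_, ?_, ?_⟩⟩
  · exact ⟨1, by decide, by push_cast; ring⟩
  · exact ⟨-1, by decide, by push_cast; ring⟩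
  · have := not_R_cast hn ho (x := i) (k := 3) (by decide) (by norm_num) (by norm_num) (by norm_num)
    show ¬ R n _ _
    simpa using this
  · exact ⟨-1, by decide, by push_cast; ring⟩
  · exact ⟨-5, by decide, by push_cast; ring⟩
  · have := not_R_cast hn ho (x := i + 2) (k := -3) (by decide) (by norm_num) (by norm_num)
      (by norm_num)
    show ¬ R n _ _
    have e : i + 2 + ((-3 : ℤ) : ZMod n) = i - 1 := by push_cast; ring
    rw [e] at this
    exact this
  · exact ⟨1, by decide, by push_cast; ring⟩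
  · exact ⟨-1, by decide, by push_cast; ring⟩
  · have := not_R_cast hn ho (x := i + 4) (k := -3) (by decide) (by norm_num) (by norm_num)
      (by norm_num)
    show ¬ R n _ _
    have e : i + 4 + ((-3 : ℤ) : ZMod n) = i + 1 := by push_cast; ring
    rw [e] at this
    exact this

lemma inv_two : ∃ u : ZMod n, u * 2 = 1 := by
  obtain ⟨r, hr⟩ := ho
  refine ⟨(r : ZMod n) + 1, ?_⟩
  have h2 : (((2 * r + 1 : ℕ)) : ZMod n) = 0 := by
    rw [← hr]; exact ZMod.natCast_self n
  push_cast at h2
  linear_combination h2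

end

theorem cycle_main {m : ℕ} (hm : 16 ≤ m) (ho : Odd (m + 1)) :
    Nonempty (SimpleGraph.cycleGraph (m + 1) ≃g irGraph (HC (m + 1) (by omega))ᶜ) := by
  have hn : 17 ≤ m + 1 := by omega
  rw [SimpleGraph.cycleGraph_eq_circulantGraph]
  have hcl : ∀ x y z, Tri (HC (m + 1) hn) x y z → ∃ i, TS (m + 1) i = {x, y, z} := by
    intro x y z h
    obtain ⟨p, hp, h1, h2⟩ := int_cls hn ho h
    exact class_TS hp h1 h2
  obtain ⟨u, hu⟩ := inv_two hn ho
  refine main (H := HC (m + 1) hn) (ι := ZMod (m + 1)) (SimpleGraph.circulantGraph {1}) 0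
    (fun k => TS (m + 1) (2 * k)) ?_ ?_ ?_ ?_ ?_ ?_
  · intro k l h
    exact half hn ho (TS_inj hn ho h)
  · intro k; exact TS_card hn _
  · intro k; exact irr_of_tri (HC_tri hn ho _)
  · intro x y z h
    obtain ⟨i, hi⟩ := hcl x y z h
    exact ⟨u * i, by rw [← hi]; congr 1; linear_combination i * hu⟩
  · intro S hS
    refine card_le_three ?_ hS
    intro a b c d hcd h1 h2 h3
    obtain ⟨p, hp, e1, e2⟩ := int_cls hn ho h1
    obtain ⟨q, hq, e3, e4⟩ := int_cls hn ho h2
    obtain ⟨r, hr, e5, e6⟩ := int_cls hn ho h3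
    exact hcd (PL4 hn ho hp hq hr e1 e2 e3 e4 e5 e6)
  · have hstep : ∀ i : ZMod (m + 1), Slide (HC (m + 1) hn)ᶜ (TS (m + 1) i) (TS (m + 1) (i + 2)) := by
      intro i
      refine ⟨i, by simp [TS], i + 6, ?_, ?_, TS_step hn i⟩
      · rw [TS_step hn i]; simp
      · rw [SimpleGraph.compl_adj]
        refine ⟨?_, not_R_six hn i⟩
        have := ne_cast hn (x := i) (a := 0) (b := 6) (by norm_num) (by norm_num) (by norm_num)
        simpa using this
    have hback : ∀ i j : ZMod (m + 1), i ≠ j → Slide (HC (m + 1) hn)ᶜ (TS (m + 1) i) (TS (m + 1) j) →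
        j = i + 2 ∨ j = i - 2 := by
      intro i j hij hs
      obtain ⟨p, q, hpq, h1, h2, h3, h4⟩ := slide_two (TS_card hn i) hs
      rcases TS_share hn hpq h1 h2 h3 h4 with h | h | h
      · exact absurd h.symm hij
      · exact Or.inl h
      · exact Or.inr h
    intro i j hij
    have hij2 : 2 * i ≠ 2 * j := fun h => hij (half hn ho h)
    have hadj : (SimpleGraph.circulantGraph ({1} : Set (ZMod (m + 1)))).Adj i j ↔
        (i - j = 1 ∨ j - i = 1) := by
      rw [SimpleGraph.circulantGraph_adj]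
      constructor
      · rintro ⟨_, h⟩; exact h
      · intro h; exact ⟨hij, h⟩
    refine Iff.trans hadj ?_
    constructor
    · rintro (h | h)
      · right
        have e : 2 * i = 2 * j + 2 := by linear_combination 2 * h
        rw [e]; exact hstep _
      · left
        have e : 2 * j = 2 * i + 2 := by linear_combination 2 * h
        rw [e]; exact hstep _
    · rintro (h | h)
      · rcases hback _ _ hij2 h with h' | h'
        · right; exact half hn ho (by linear_combination h')
        · left; exact half hn ho (by linear_combination -h')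
      · rcases hback _ _ hij2.symm h with h' | h'
        · left; exact half hn ho (by linear_combination h')
        · right; exact half hn ho (by linear_combination -h')

end Pool.Agent.KS6_40.IR
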