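import Pool.Agent.KS6_40.IR.Cyc

namespace Pool.Agent.KS6_40.IR

def remI (a b : ℤ) : Prop := (a = 0 ∧ b = 5) ∨ (a = 5 ∧ b = 0) ∨ (a = 1 ∧ b = 6) ∨ (a = 6 ∧ b = 1)

instance : DecidableRel remI := fun a b => by unfold remI; infer_instance

def rem (n : ℕ) (a b : ZMod n) : Prop :=
  (a = 0 ∧ b = 5) ∨ (a = 5 ∧ b = 0) ∨ (a = 1 ∧ b = 6) ∨ (a = 6 ∧ b = 1)

lemma rem.symm {n : ℕ} {a b : ZMod n} (h : rem n a b) : rem n b a := by
  unfold rem at *; tauto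

lemma rem_of_remI {n : ℕ} {a b : ℤ} (h : remI a b) : rem n (a : ZMod n) (b : ZMod n) := by
  rcases h with ⟨rfl, rfl⟩ | ⟨rfl, rfl⟩ | ⟨rfl, rfl⟩ | ⟨rfl, rfl⟩ <;> simp [rem]

def NC : List (ℤ × ℤ) := [(5, 1), (5, -5), (0, 6), (0, 10), (6, 0), (6, -4), (1, 5), (1, 11)]

def QL : List (ℤ × ℤ) := [(0, 5), (5, 0), (1, 6), (6, 1)]

lemma key5a : ∀ q ∈ QL, ∀ g ∈ DD, ∀ g' ∈ DD,
    (remI q.2 (q.2 + g) ∨ remI q.2 (q.2 + g') ∨ g = g' ∨
    ((q.1, q.2 + g) ∈ NC ∨ (q.1, q.2 + g') ∈ NC)) := by decide +kernel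

lemma key5 (q : ℤ × ℤ) (hq : q ∈ QL) (g : ℤ) (hg : g ∈ DD) (g' : ℤ) (hg' : g' ∈ DD)
    (h1 : ¬ remI q.2 (q.2 + g)) (h2 : ¬ remI q.2 (q.2 + g')) (h3 : g ≠ g') :
    ((q.1, q.2 + g) ∈ NC ∨ (q.1, q.2 + g') ∈ NC) := by
  rcases key5a q hq g hg g' hg' with h | h | h | h
  · exact absurd h h1
  · exact absurd h h2
  · exact absurd h h3
  · exact h

lemma key6 : ∀ q ∈ NC, ∀ d ∈ DD, ∀ d' ∈ DD, q.1 + d = q.2 + d' →
    (remI q.1 (q.1 + d) ∨ remI q.2 (q.1 + d)) := by decide +kernel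

lemma key7 : ∀ d ∈ DD, ∀ d' ∈ DD, ∀ g ∈ DD, ∀ g' ∈ DD, ¬ remI 0 d → d - 4 ∉ DD →
    ¬ (4 + d' ∈ DD ∧ ¬ remI 0 (4 + d')) → d + g = 4 + d' + g' → ¬ remI d (d + g) →
    ¬ remI (4 + d') (4 + d' + g') → d + g = 2 ∧ d = 1 ∧ d' = -1 := by decide +kernel

lemma NC_bd : ∀ q ∈ NC, 2 * ((q.1 - q.2) / 2) = q.1 - q.2 ∧ -10 ≤ q.1 - q.2 ∧ q.1 - q.2 ≤ 10 ∧
    -5 ≤ q.1 ∧ q.1 ≤ 11 ∧ -5 ≤ q.2 ∧ q.2 ≤ 11 ∧
    ((q.1 ≠ 0 ∧ q.1 ≠ 4) ∨ (q.2 ≠ 0 ∧ q.2 ≠ 4)) := by decide +kernel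

/-- the circulant graph with two edges removed and one vertex added -/
def HP (n : ℕ) (hn : 17 ≤ n) (ε : Prop) : SimpleGraph (Option (ZMod n)) where
  Adj a b := match a, b with
    | some x, some y => R n x y ∧ ¬ rem n x y
    | none, some y => ε ∧ (y = 0 ∨ y = 4)
    | some y, none => ε ∧ (y = 0 ∨ y = 4)
    | none, none => False
  symm := ⟨by
    rintro (_ | x) (_ | y) h
    · exact h
    · exact h
    · exact h
    · exact ⟨h.1.symm, fun h' => h.2 h'.symm⟩⟩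
  loopless := ⟨by
    rintro (_ | x) h
    · exact h
    · exact R_irrefl hn x h.1⟩

section
variable {n : ℕ} {hn : 17 ≤ n} {ε : Prop}

lemma ss {x y : ZMod n} : (HP n hn ε).Adj (some x) (some y) ↔ R n x y ∧ ¬ rem n x y := Iff.rfl
lemma ns {y : ZMod n} : (HP n hn ε).Adj none (some y) ↔ ε ∧ (y = 0 ∨ y = 4) := Iff.rfl
lemma sn {y : ZMod n} : (HP n hn ε).Adj (some y) none ↔ ε ∧ (y = 0 ∨ y = 4) := Iff.rfl
lemma nn : ¬ (HP n hn ε).Adj none none := fun h => h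

lemma cast_inj {a b : ℤ} (h : (a : ZMod n) = (b : ZMod n)) (h1 : -17 < a - b)
    (h2 : a - b < 17) (hn : 17 ≤ n) : a = b := by
  by_contra hne
  exact ne_cast hn (x := 0) hne h1 h2 (by rw [h])

lemma remI_of_rem {a b : ℤ} (hn : 17 ≤ n) (h : rem n (a : ZMod n) (b : ZMod n)) (ha : -10 ≤ a)
    (ha' : a ≤ 15) (hb : -10 ≤ b) (hb' : b ≤ 15) : remI a b := by
  unfold remI
  rcases h with ⟨h1, h2⟩ | ⟨h1, h2⟩ | ⟨h1, h2⟩ | ⟨h1, h2⟩
  · left
    exact ⟨cast_inj (by rw [h1]; simp) (by omega) (by omega) hn,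
      cast_inj (b := 5) (by rw [h2]; simp) (by omega) (by omega) hn⟩
  · right; left
    exact ⟨cast_inj (b := 5) (by rw [h1]; simp) (by omega) (by omega) hn,
      cast_inj (by rw [h2]; simp) (by omega) (by omega) hn⟩
  · right; right; left
    exact ⟨cast_inj (b := 1) (by rw [h1]; simp) (by omega) (by omega) hn,
      cast_inj (b := 6) (by rw [h2]; simp) (by omega) (by omega) hn⟩
  · right; right; right
    exact ⟨cast_inj (b := 6) (by rw [h1]; simp) (by omega) (by omega) hn,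
      cast_inj (b := 1) (by rw [h2]; simp) (by omega) (by omega) hn⟩

lemma nocommon (ho : Odd n) {q : ℤ × ℤ} (hq : q ∈ NC) {w : Option (ZMod n)}
    (h1 : (HP n hn ε).Adj (some ((q.1 : ℤ) : ZMod n)) w)
    (h2 : (HP n hn ε).Adj (some ((q.2 : ℤ) : ZMod n)) w) : False := by
  obtain ⟨b1, b2, b3, b4, b5, b6, b7, b8⟩ := NC_bd q hq
  rcases w with _ | w
  · rw [sn] at h1 h2
    rcases b8 with ⟨c1, c2⟩ | ⟨c1, c2⟩
    · rcases h1.2 with h | h
      · exact c1 (cast_inj (by rw [h]; simp) (by omega) (by omega) hn)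
      · exact c2 (cast_inj (b := 4) (by rw [h]; simp) (by omega) (by omega) hn)
    · rcases h2.2 with h | h
      · exact c1 (cast_inj (by rw [h]; simp) (by omega) (by omega) hn)
      · exact c2 (cast_inj (b := 4) (by rw [h]; simp) (by omega) (by omega) hn)
  · obtain ⟨⟨d, hd, e1⟩, r1⟩ := ss.mp h1
    obtain ⟨⟨d', hd', e2⟩, r2⟩ := ss.mp h2
    obtain ⟨o1, o2, o3⟩ := DD_odd d hd
    obtain ⟨p1, p2, p3⟩ := DD_odd d' hd'
    have he : q.1 + d = q.2 + d' := by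
      refine eq_of_cast hn ho (x := 0) ?_ (by omega) (by omega) (by omega)
      push_cast
      linear_combination e2 - e1
    rcases key6 q hq d hd d' hd' he with h | h
    · apply r1
      have := rem_of_remI (n := n) h
      rw [e1]; push_cast at this; exact this
    · apply r2
      have := rem_of_remI (n := n) h
      rw [e1]; push_cast at this; exact this

/-- a removed edge is never needed -/
lemma b2 (ho : Odd n) {x y z w : ZMod n} (hyz : y ≠ z) (h1 : (HP n hn ε).Adj (some y) (some w))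
    (h2 : (HP n hn ε).Adj (some z) (some w))
    (h3 : ∃ v, (HP n hn ε).Adj (some x) v ∧ (HP n hn ε).Adj (some y) v)
    (h4 : ∃ v, (HP n hn ε).Adj (some x) v ∧ (HP n hn ε).Adj (some z) v) : ¬ rem n x w := by
  intro hr
  have hq : ∃ q ∈ QL,
      x = ((q.1 : ℤ) : ZMod n) ∧ w = ((q.2 : ℤ) : ZMod n) := by
    rcases hr with ⟨rfl, rfl⟩ | ⟨rfl, rfl⟩ | ⟨rfl, rfl⟩ | ⟨rfl, rfl⟩
    · exact ⟨(0, 5), by simp [QL], by simp, by simp⟩
    · exact ⟨(5, 0), by simp [QL], by simp, by simp⟩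
    · exact ⟨(1, 6), by simp [QL], by simp, by simp⟩
    · exact ⟨(6, 1), by simp [QL], by simp, by simp⟩
  obtain ⟨q, hq, rfl, rfl⟩ := hq
  obtain ⟨r1, n1⟩ := ss.mp h1.symm
  obtain ⟨r2, n2⟩ := ss.mp h2.symm
  obtain ⟨g, hg, rfl⟩ := r1
  obtain ⟨g', hg', rfl⟩ := r2
  have hgg : g ≠ g' := by rintro rfl; exact hyz rfl
  have m1 : ¬ remI q.2 (q.2 + g) := by
    intro h; apply n1; have := rem_of_remI (n := n) h; push_cast at this; exact this
  have m2 : ¬ remI q.2 (q.2 + g') := by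
    intro h; apply n2; have := rem_of_remI (n := n) h; push_cast at this; exact this
  rcases key5 q hq g hg g' hg' m1 m2 hgg with h | h
  · obtain ⟨v, v1, v2⟩ := h3
    exact nocommon ho h v1 (by push_cast; exact v2)
  · obtain ⟨v, v1, v2⟩ := h4
    exact nocommon ho h v1 (by push_cast; exact v2)

lemma lemL (ho : Odd n) {x u v : ZMod n}
    (h1 : (HP n hn ε).Adj (some 0) (some u)) (h2 : ¬ (HP n hn ε).Adj (some 4) (some u))
    (h3 : (HP n hn ε).Adj (some 4) (some v)) (h4 : ¬ (HP n hn ε).Adj (some 0) (some v))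
    (h5 : (HP n hn ε).Adj (some u) (some x)) (h6 : (HP n hn ε).Adj (some v) (some x)) :
    x = 2 ∧ u = 1 ∧ v = 3 := by
  obtain ⟨⟨d, hd, eu⟩, n1⟩ := ss.mp h1
  obtain ⟨⟨d', hd', ev⟩, n3⟩ := ss.mp h3
  obtain ⟨⟨g, hg, ex⟩, n5⟩ := ss.mp h5
  obtain ⟨⟨g', hg', ex'⟩, n6⟩ := ss.mp h6
  obtain ⟨a1, a2, a3⟩ := DD_odd d hd
  obtain ⟨b1, b2, b3⟩ := DD_odd d' hd'
  obtain ⟨c1, c2, c3⟩ := DD_odd g hg
  obtain ⟨e1, e2, e3⟩ := DD_odd g' hg'
  have hu : u = ((d : ℤ) : ZMod n) := by rw [eu]; simp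
  have hv : v = ((4 + d' : ℤ) : ZMod n) := by rw [ev]; push_cast; ring
  have hx : x = ((d + g : ℤ) : ZMod n) := by rw [ex, hu]; push_cast; ring
  have hx' : x = ((4 + d' + g' : ℤ) : ZMod n) := by rw [ex', hv]; push_cast; ring
  have he : d + g = 4 + d' + g' := by
    refine eq_of_cast hn ho (x := 0) ?_ (by omega) (by omega) (by omega)
    rw [← hx, ← hx']
  have m1 : ¬ remI 0 d := by
    intro h; apply n1; have := rem_of_remI (n := n) h; rw [hu]; simpa using this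
  have m2 : d - 4 ∉ DD := by
    intro h
    apply h2
    refine ss.mpr ⟨⟨d - 4, h, by rw [hu]; push_cast; ring⟩, ?_⟩
    intro hr
    rw [hu] at hr
    have := remI_of_rem (n := n) (a := 4) (b := d) hn (by simpa using hr) (by omega) (by omega)
      (by omega) (by omega)
    unfold remI at this
    omega
  have m3 : ¬ (4 + d' ∈ DD ∧ ¬ remI 0 (4 + d')) := by
    rintro ⟨h, hr⟩
    apply h4
    refine ss.mpr ⟨⟨4 + d', h, by rw [hv]; simp⟩, ?_⟩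
    intro hr'
    apply hr
    rw [hv] at hr'
    exact remI_of_rem (n := n) (a := 0) (b := 4 + d') hn (by simpa using hr') (by omega) (by omega)
      (by omega) (by omega)
  have m4 : ¬ remI d (d + g) := by
    intro h; apply n5; have := rem_of_remI (n := n) h; rw [hu, hx]; exact this
  have m5 : ¬ remI (4 + d') (4 + d' + g') := by
    intro h; apply n6; have := rem_of_remI (n := n) h; rw [hv, hx']; exact this
  obtain ⟨k1, k2, k3⟩ := key7 d hd d' hd' g hg g' hg' m1 m2 m3 he m4 m5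
  refine ⟨?_, ?_, ?_⟩
  · rw [hx, k1]; simp
  · rw [hu, k2]; simp
  · rw [hv, k3]; norm_num

lemma zero_ne_four (hn : 17 ≤ n) : (0 : ZMod n) ≠ 4 := by
  have := ne_cast hn (x := 0) (a := 0) (b := 4) (by norm_num) (by norm_num) (by norm_num)
  simpa using this

lemma no04 (ho : Odd n) : ¬ (HP n hn ε).Adj (some 0) (some 4) := by
  intro h
  obtain ⟨⟨d, hd, e⟩, _⟩ := ss.mp h
  obtain ⟨a1, a2, a3⟩ := DD_odd d hd
  have := ne_cast hn (x := 0) (a := 4) (b := d) (by omega) (by omega) (by omega)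
  apply this
  push_cast
  rw [← e]; ring

/-- if the extra vertex is a witness then the triple is the zeroth one -/
lemma b1 (ho : Odd n) {x y z : ZMod n} (hyz : y ≠ z)
    (h1 : (HP n hn ε).Adj (some y) none) (h2 : (HP n hn ε).Adj (some z) none)
    (h3 : ∃ w, (HP n hn ε).Adj (some x) w ∧ (HP n hn ε).Adj (some z) w ∧
      ¬ (HP n hn ε).Adj (some y) w)
    (h4 : ∃ w, (HP n hn ε).Adj (some x) w ∧ (HP n hn ε).Adj (some y) w ∧
      ¬ (HP n hn ε).Adj (some z) w) :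
    x = 2 ∧ ((y = 0 ∧ z = 4) ∨ (y = 4 ∧ z = 0)) := by
  obtain ⟨v, v1, v2, v3⟩ := h3
  obtain ⟨u, u1, u2, u3⟩ := h4
  rcases v with _ | v
  · exact absurd h1 v3
  rcases u with _ | u
  · exact absurd h2 u3
  rw [sn] at h1 h2
  rcases h1.2 with rfl | rfl <;> rcases h2.2 with rfl | rfl
  · exact absurd rfl hyz
  · exact ⟨(lemL ho u2 u3 v2 v3 u1.symm v1.symm).1, Or.inl ⟨rfl, rfl⟩⟩
  · exact ⟨(lemL ho v2 v3 u2 u3 v1.symm u1.symm).1, Or.inr ⟨rfl, rfl⟩⟩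
  · exact absurd rfl hyz

lemma noneCls (ho : Odd n) {y z : Option (ZMod n)} (h : Tri (HP n hn ε) none y z) :
    ε ∧ ((y = some 1 ∧ z = some 3) ∨ (y = some 3 ∧ z = some 1)) := by
  obtain ⟨hny, hnz, hyz⟩ := h.ne
  rcases y with _ | y
  · exact absurd rfl hny
  rcases z with _ | z
  · exact absurd rfl hnz
  obtain ⟨⟨w, w1, w2, w3⟩, ⟨v, v1, v2, v3⟩, ⟨u, u1, u2, u3⟩⟩ := h
  rcases v with _ | v
  · exact absurd v1 nn
  rcases u with _ | u
  · exact absurd u1 nn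
  rcases w with _ | w
  · -- both would be zero or four
    exfalso
    rw [sn] at w1 w2
    have hyz' : y ≠ z := fun h => hyz (by rw [h])
    rw [ns] at v1 u1
    rcases w1.2 with rfl | rfl <;> rcases w2.2 with rfl | rfl
    · exact hyz' rfl
    · rcases v1.2 with rfl | rfl
      · exact no04 ho v2.symm
      · exact SimpleGraph.irrefl _ v2
    · rcases v1.2 with rfl | rfl
      · exact SimpleGraph.irrefl _ v2
      · exact no04 ho v2
    · exact hyz' rfl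
  rw [ns] at v1 u1
  refine ⟨v1.1, ?_⟩
  rcases v1.2 with rfl | rfl <;> rcases u1.2 with rfl | rfl
  · exact absurd v2 u3
  · -- v = 0 is adjacent to z, u = 4 is adjacent to y
    obtain ⟨_, e1, e2⟩ := lemL ho v2.symm (fun h => u3 h.symm) u2.symm (fun h => v3 h.symm) w2 w1
    right; exact ⟨by rw [e2], by rw [e1]⟩
  · obtain ⟨_, e1, e2⟩ := lemL ho u2.symm (fun h => v3 h.symm) v2.symm (fun h => u3 h.symm) w1 w2
    left; exact ⟨by rw [e1], by rw [e2]⟩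
  · exact absurd v2 u3

lemma Tri.swap12 {V : Type} {H : SimpleGraph V} {x y z : V} (h : Tri H x y z) : Tri H y x z :=
  ⟨h.2.1, h.1, by obtain ⟨w, a, b, c⟩ := h.2.2; exact ⟨w, b, a, c⟩⟩

lemma Tri.swap23 {V : Type} {H : SimpleGraph V} {x y z : V} (h : Tri H x y z) : Tri H x z y :=
  ⟨by obtain ⟨w, a, b, c⟩ := h.1; exact ⟨w, b, a, c⟩, h.2.2, h.2.1⟩

lemma TS_one_bad (ho : Odd n) {x y z : ZMod n} (h : Tri (HP n hn ε) (some x) (some y) (some z)) :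
    ({x, y, z} : Finset (ZMod n)) ≠ TS n 1 := by
  intro hE
  have hm1 : (1 : ZMod n) ∈ ({x, y, z} : Finset (ZMod n)) := by rw [hE]; simp [TS]
  have hm5 : (5 : ZMod n) ∈ ({x, y, z} : Finset (ZMod n)) := by
    rw [hE]
    have : (1 : ZMod n) + 4 = 5 := by norm_num
    simp [TS, this]
  have hne : (1 : ZMod n) ≠ 5 := by
    have := ne_cast hn (x := 0) (a := 1) (b := 5) (by norm_num) (by norm_num) (by norm_num)
    simpa using this
  have hno : ∀ w, (HP n hn ε).Adj (some 1) w → (HP n hn ε).Adj (some 5) w → False := by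
    intro w h1 h2
    exact nocommon (q := (1, 5)) ho (by decide) (by simpa using h1) (by simpa using h2)
  obtain ⟨⟨w1, a1, b1, _⟩, ⟨w2, a2, b2, _⟩, ⟨w3, a3, b3, _⟩⟩ := h
  simp only [Finset.mem_insert, Finset.mem_singleton] at hm1 hm5
  rcases hm1 with rfl | rfl | rfl <;> rcases hm5 with h | h | h
  · exact hne h.symm
  · subst h; exact hno _ a3 b3
  · subst h; exact hno _ a2 b2
  · subst h; exact hno _ b3 a3
  · exact hne h.symm
  · subst h; exact hno _ a1 b1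
  · subst h; exact hno _ b2 a2
  · subst h; exact hno _ b1 a1
  · exact hne h.symm

lemma someCls (ho : Odd n) {x y z : ZMod n} (h : Tri (HP n hn ε) (some x) (some y) (some z)) :
    ∃ i, i ≠ 1 ∧ TS n i = {x, y, z} := by
  have hbad := TS_one_bad ho h
  suffices hs : ∃ i, TS n i = {x, y, z} by
    obtain ⟨i, hi⟩ := hs
    refine ⟨i, ?_, hi⟩
    rintro rfl
    exact hbad hi.symm
  obtain ⟨hxy, hxz, hyz⟩ := h.ne
  have hxy' : x ≠ y := fun e => hxy (by rw [e])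
  have hxz' : x ≠ z := fun e => hxz (by rw [e])
  have hyz' : y ≠ z := fun e => hyz (by rw [e])
  obtain ⟨⟨w1, a1, b1', c1⟩, ⟨w2, a2, b2', c2⟩, ⟨w3, a3, b3', c3⟩⟩ := h
  have hz4 := zero_ne_four hn
  have fin : ∀ {p q r : ZMod n}, (p = 2 ∧ ((q = 0 ∧ r = 4) ∨ (q = 4 ∧ r = 0))) →
      TS n 0 = {p, q, r} := by
    rintro p q r ⟨rfl, ⟨rfl, rfl⟩ | ⟨rfl, rfl⟩⟩ <;>
    · ext t; simp only [TS, Finset.mem_insert, Finset.mem_singleton, zero_add]; tauto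
  rcases w1 with _ | w1
  · exact ⟨0, fin (b1 ho hyz' a1 b1' ⟨w2, a2, b2', c2⟩ ⟨w3, a3, b3', c3⟩)⟩
  rcases w2 with _ | w2
  · refine ⟨0, ?_⟩
    rw [fin (b1 ho hxz' a2 b2' ⟨_, a1, b1', c1⟩ ⟨w3, b3', a3, c3⟩)]
    ext t; simp only [Finset.mem_insert, Finset.mem_singleton]; tauto
  rcases w3 with _ | w3
  · refine ⟨0, ?_⟩
    rw [fin (b1 ho hxy' a3 b3' ⟨_, b1', a1, c1⟩ ⟨_, b2', a2, c2⟩)]
    ext t; simp only [Finset.mem_insert, Finset.mem_singleton]; tauto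
  have q1 := b2 ho hyz' a1 b1' ⟨_, a3, b3'⟩ ⟨_, a2, b2'⟩
  have q2 := b2 ho hxz' a2 b2' ⟨_, b3', a3⟩ ⟨_, a1, b1'⟩
  have q3 := b2 ho hxy' a3 b3' ⟨_, b2', a2⟩ ⟨_, b1', a1⟩
  have r1 : ¬ R n x w1 := fun hr => c1 (ss.mpr ⟨hr, q1⟩)
  have r2 : ¬ R n y w2 := fun hr => c2 (ss.mpr ⟨hr, q2⟩)
  have r3 : ¬ R n z w3 := fun hr => c3 (ss.mpr ⟨hr, q3⟩)
  obtain ⟨p, hp, e1, e2⟩ := circ_class hn ho hxy' hxz' hyz' (ss.mp a1).1 (ss.mp b1').1 r1
    (ss.mp a2).1 (ss.mp b2').1 r2 (ss.mp a3).1 (ss.mp b3').1 r3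
  exact class_TS hp e1 e2

end

end Pool.Agent.KS6_40.IR
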