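import Pool.Agent.KS6_40.IR.PathMain

namespace Pool.Agent.KS6_40.IR

theorem path_main {n : ℕ} (hn : 17 ≤ n) (ho : Odd n) (ε : Prop) (N : ℕ)
    (hN : (N = n - 1 ∧ ¬ ε) ∨ (N = n ∧ ε)) [Fintype (Option (ZMod n))] :
    Nonempty (SimpleGraph.pathGraph N ≃g irGraph (HP n hn ε)ᶜ) := by
  have hN1 : n - 1 ≤ N ∧ N ≤ n := by rcases hN with ⟨h, _⟩ | ⟨h, _⟩ <;> omega
  have hε : ∀ k, k < N → ¬ k < n - 1 → ε := by
    intro k h1 h2
    rcases hN with ⟨h, _⟩ | ⟨_, h⟩
    · omega
    · exact h
  haveI : NeZero n := ⟨by omega⟩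
  obtain ⟨u, hu⟩ := inv_two hn ho
  have hcast : ∀ k l : ℕ, k < n → l < n → ((k : ZMod n) = (l : ZMod n)) → k = l := by
    intro k l hk hl h
    have := congrArg ZMod.val h
    rwa [ZMod.val_natCast_of_lt hk, ZMod.val_natCast_of_lt hl] at this
  have hn0 : ((n : ℕ) : ZMod n) = 0 := ZMod.natCast_self n
  have hidx1 : ∀ k : ℕ, k < n - 1 → (3 + 2 * (k : ZMod n)) ≠ 1 := by
    intro k hk h
    have h2 : 2 * (((k + 1 : ℕ)) : ZMod n) = 2 * ((0 : ℕ) : ZMod n) := by
      push_cast; linear_combination h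
    have := hcast _ _ (by omega) (by omega) (half hn ho h2)
    omega
  have hidx2 : ∀ k : ℕ, k < n - 1 → (3 + 2 * (k : ZMod n)) = -1 → k = n - 2 := by
    intro k hk h
    have h2 : 2 * ((k : ℕ) : ZMod n) = 2 * (((n - 2 : ℕ)) : ZMod n) := by
      rw [Nat.cast_sub (by omega : 2 ≤ n), hn0]
      push_cast; linear_combination h
    exact hcast _ _ (by omega) (by omega) (half hn ho h2)
  have hidx3 : (3 + 2 * (((n - 2 : ℕ)) : ZMod n)) = -1 := by
    rw [Nat.cast_sub (by omega : 2 ≤ n), hn0]
    push_cast; ring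
  have hstepi : ∀ k l : ℕ, k < n - 1 → l < n - 1 →
      ((3 + 2 * (l : ZMod n)) = (3 + 2 * (k : ZMod n)) + 2 ↔ k + 1 = l) := by
    intro k l hk hl
    constructor
    · intro h
      have h2 : 2 * ((l : ℕ) : ZMod n) = 2 * (((k + 1 : ℕ)) : ZMod n) := by
        push_cast; linear_combination h
      exact (hcast _ _ (by omega) (by omega) (half hn ho h2)).symm
    · rintro rfl
      push_cast; ring
  have hFlt : ∀ k, k < n - 1 → FX n k = TO n (3 + 2 * (k : ZMod n)) := fun k h => if_pos h
  have hFge : ∀ k, ¬ k < n - 1 → FX n k = XT n := fun k h => if_neg h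
  have hnoneX : (none : Option (ZMod n)) ∈ XT n := by simp [XT]
  have hslideX : Slide (HP n hn ε)ᶜ (TO n (-1)) (XT n) := by
    have e1 : (-1 : ZMod n) + 2 = 1 := by ring
    have e2 : (-1 : ZMod n) + 4 = 3 := by ring
    have d1 : (-1 : ZMod n) ≠ 1 := by
      have := ne_cast hn (x := 0) (a := -1) (b := 1) (by norm_num) (by norm_num) (by norm_num)
      simpa using this
    have d3 : (-1 : ZMod n) ≠ 3 := by
      have := ne_cast hn (x := 0) (a := -1) (b := 3) (by norm_num) (by norm_num) (by norm_num)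
      simpa using this
    have d0 : (-1 : ZMod n) ≠ 0 := by
      have := ne_cast hn (x := 0) (a := -1) (b := 0) (by norm_num) (by norm_num) (by norm_num)
      simpa using this
    have d4 : (-1 : ZMod n) ≠ 4 := by
      have := ne_cast hn (x := 0) (a := -1) (b := 4) (by norm_num) (by norm_num) (by norm_num)
      simpa using this
    refine ⟨some (-1), some_mem_TO.mpr (by simp [TS]), none, hnoneX, ?_, ?_⟩
    · rw [SimpleGraph.compl_adj]
      refine ⟨by simp, ?_⟩
      intro h
      rcases (sn.mp h).2 with h | h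
      · exact d0 h
      · exact d4 h
    · have hT : TS n (-1) = {-1, 1, 3} := by unfold TS; rw [e1, e2]
      have hTO : TO n (-1) = {some (-1), some 1, some 3} := TO_eq hT
      rw [hTO, Finset.erase_insert]
      · rfl
      · simp only [Finset.mem_insert, Finset.mem_singleton, Option.some.injEq, not_or]
        exact ⟨d1, d3⟩
  have hshareX : ∀ i : ZMod n, i ≠ 1 → (∃ p q, p ≠ q ∧ p ∈ TO n i ∧ q ∈ TO n i ∧ p ∈ XT n ∧ q ∈ XT n) →
      i = -1 := by
    rintro i hi ⟨p, q, hpq, h1, h2, h3, h4⟩
    have hp : p = some 1 ∨ p = some 3 := by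
      simp only [XT, Finset.mem_insert, Finset.mem_singleton] at h3
      rcases h3 with rfl | h | h
      · exact absurd h1 none_mem_TO
      · exact Or.inl h
      · exact Or.inr h
    have hq : q = some 1 ∨ q = some 3 := by
      simp only [XT, Finset.mem_insert, Finset.mem_singleton] at h4
      rcases h4 with rfl | h | h
      · exact absurd h2 none_mem_TO
      · exact Or.inl h
      · exact Or.inr h
    have : (some 1 : Option (ZMod n)) ∈ TO n i ∧ (some 3 : Option (ZMod n)) ∈ TO n i := by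
      rcases hp with rfl | rfl <;> rcases hq with rfl | rfl
      · exact absurd rfl hpq
      · exact ⟨h1, h2⟩
      · exact ⟨h2, h1⟩
      · exact absurd rfl hpq
    rw [some_mem_TO, some_mem_TO] at this
    rcases one_three hn this.1 this.2 with h | h
    · exact absurd h hi
    · exact h
  refine main (H := HP n hn ε) (ι := Fin N) (SimpleGraph.pathGraph N) ⟨0, by omega⟩
    (fun k => FX n k.val) ?_ ?_ ?_ ?_ ?_ ?_
  · -- injective
    rintro ⟨k, hk⟩ ⟨l, hl⟩ h
    simp only at h
    rw [Fin.mk.injEq]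
    by_cases h1 : k < n - 1 <;> by_cases h2 : l < n - 1
    · rw [hFlt k h1, hFlt l h2] at h
      have h3 := TO_inj hn ho h
      have h4 : 2 * ((k : ℕ) : ZMod n) = 2 * ((l : ℕ) : ZMod n) := by linear_combination h3
      exact hcast _ _ (by omega) (by omega) (half hn ho h4)
    · rw [hFlt k h1, hFge l h2] at h
      exact absurd (h ▸ hnoneX) none_mem_TO
    · rw [hFge k h1, hFlt l h2] at h
      exact absurd (h.symm ▸ hnoneX) none_mem_TO
    · omega
  · rintro ⟨k, hk⟩
    simp only
    by_cases h1 : k < n - 1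
    · rw [hFlt k h1]; exact TO_card hn _
    · rw [hFge k h1]; exact XT_card hn
  · rintro ⟨k, hk⟩
    simp only
    by_cases h1 : k < n - 1
    · rw [hFlt k h1]; exact TO_irr ho (hidx1 k h1)
    · rw [hFge k h1]; exact XT_irr ho (hε k hk h1)
  · intro a b c h
    rcases cls ho h with ⟨x, y, z, rfl, rfl, rfl, i, hi1, hi⟩ | ⟨he, e1, _⟩
    · have hk1 : (u * (i - 3)).val < n := ZMod.val_lt _
      have hk2 : 3 + 2 * (((u * (i - 3)).val : ℕ) : ZMod n) = i := by
        rw [ZMod.natCast_zmod_val]; linear_combination (i - 3) * hu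
      have hk3 : (u * (i - 3)).val < n - 1 := by
        by_contra hc
        have hv : (u * (i - 3)).val = n - 1 := by omega
        rw [hv, Nat.cast_sub (by omega : 1 ≤ n), hn0] at hk2
        apply hi1
        rw [← hk2]; push_cast; ring
      refine ⟨⟨(u * (i - 3)).val, by omega⟩, ?_⟩
      simp only
      rw [hFlt _ hk3, hk2]
      exact TO_eq hi
    · have hNn : N = n := by
        rcases hN with ⟨_, h⟩ | ⟨h, _⟩
        · exact absurd he h
        · exact h
      refine ⟨⟨n - 1, by omega⟩, ?_⟩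
      simp only
      rw [hFge _ (by omega), e1]
  · intro S hS
    exact card_le_three (fun a b c d hcd h1 h2 h3 => four ho hcd h1 h2 h3) hS
  · have hcore : ∀ k l : ℕ, k < N → l < N → k ≠ l → Slide (HP n hn ε)ᶜ (FX n k) (FX n l) →
        (k + 1 = l ∨ l + 1 = k) := by
      intro k l hk hl hkl hs
      by_cases h1 : k < n - 1 <;> by_cases h2 : l < n - 1
      · rw [hFlt k h1, hFlt l h2] at hs
        obtain ⟨p, q, hpq, s1, s2, s3, s4⟩ := slide_two (TO_card hn _) hs
        rcases TO_share hn hpq s1 s2 s3 s4 with h | h | h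
        · exfalso
          have h4 : 2 * ((l : ℕ) : ZMod n) = 2 * ((k : ℕ) : ZMod n) := by linear_combination h
          exact hkl (hcast _ _ (by omega) (by omega) (half hn ho h4)).symm
        · exact Or.inl ((hstepi k l h1 h2).mp h)
        · exact Or.inr ((hstepi l k h2 h1).mp (by linear_combination -h))
      · rw [hFlt k h1, hFge l h2] at hs
        obtain ⟨p, q, hpq, s1, s2, s3, s4⟩ := slide_two (TO_card hn _) hs
        have := hidx2 k h1 (hshareX _ (hidx1 k h1) ⟨p, q, hpq, s1, s2, s3, s4⟩)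
        left; omega
      · rw [hFge k h1, hFlt l h2] at hs
        obtain ⟨p, q, hpq, s1, s2, s3, s4⟩ := slide_two (XT_card hn) hs
        have := hidx2 l h2 (hshareX _ (hidx1 l h2) ⟨p, q, hpq, s3, s4, s1, s2⟩)
        right; omega
      · omega
    have hcore2 : ∀ k l : ℕ, k < N → l < N → k + 1 = l → Slide (HP n hn ε)ᶜ (FX n k) (FX n l) := by
      intro k l hk hl hkl
      have h1 : k < n - 1 := by omega
      by_cases h2 : l < n - 1
      · rw [hFlt k h1, hFlt l h2, (hstepi k l h1 h2).mpr hkl]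
        exact TO_slide trivial _
      · rw [hFlt k h1, hFge l h2]
        have hk' : k = n - 2 := by omega
        rw [hk', hidx3]
        exact hslideX
    rintro ⟨k, hk⟩ ⟨l, hl⟩ hkl
    rw [SimpleGraph.pathGraph_adj]
    simp only
    have hkl' : k ≠ l := fun h => hkl (by rw [Fin.mk.injEq]; exact h)
    constructor
    · rintro (h | h)
      · exact Or.inl (hcore2 k l hk hl h)
      · exact Or.inr (hcore2 l k hl hk h)
    · rintro (h | h)
      · exact hcore k l hk hl hkl' h
      · exact (hcore l k hl hk hkl'.symm h).symm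

end Pool.Agent.KS6_40.IR
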