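import Pool.Agent.KS6_40.IR.Path

namespace Pool.Agent.KS6_40.IR

/-- triples in the extended vertex set -/
def TO (n : ℕ) (i : ZMod n) : Finset (Option (ZMod n)) := (TS n i).image some

/-- the extra triple -/
def XT (n : ℕ) : Finset (Option (ZMod n)) := {none, some 1, some 3}

def FX (n : ℕ) (k : ℕ) : Finset (Option (ZMod n)) :=
  if k < n - 1 then TO n (3 + 2 * (k : ZMod n)) else XT n

lemma mem_TO {n : ℕ} {i : ZMod n} {a : Option (ZMod n)} : a ∈ TO n i ↔ ∃ x ∈ TS n i, some x = a := by
  unfold TO; rw [Finset.mem_image]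

lemma some_mem_TO {n : ℕ} {i x : ZMod n} : some x ∈ TO n i ↔ x ∈ TS n i := by
  rw [mem_TO]
  constructor
  · rintro ⟨y, hy, e⟩
    rw [Option.some.injEq] at e; rw [← e]; exact hy
  · intro h; exact ⟨x, h, rfl⟩

lemma none_mem_TO {n : ℕ} {i : ZMod n} : none ∉ TO n i := by
  rw [mem_TO]
  rintro ⟨y, _, e⟩
  cases e

lemma TO_eq {n : ℕ} {i x y z : ZMod n} (h : TS n i = {x, y, z}) :
    TO n i = {some x, some y, some z} := by
  unfold TO; rw [h]; simp [Finset.image_insert]

section
variable {n : ℕ} {hn : 17 ≤ n} {ε : Prop}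

lemma TO_card (hn : 17 ≤ n) (i : ZMod n) : (TO n i).card = 3 := by
  unfold TO
  rw [Finset.card_image_of_injective _ (Option.some_injective _), TS_card hn]

lemma one_ne_three (hn : 17 ≤ n) : (1 : ZMod n) ≠ 3 := by
  have := ne_cast hn (x := 0) (a := 1) (b := 3) (by norm_num) (by norm_num) (by norm_num)
  simpa using this

lemma XT_card (hn : 17 ≤ n) : (XT n).card = 3 := by
  refine Finset.card_eq_three.mpr ⟨none, some 1, some 3, by simp, by simp, ?_, rfl⟩
  intro h
  exact one_ne_three hn (Option.some.inj h)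

lemma not_rem_pm {x : ZMod n} (hn : 17 ≤ n) {k : ℤ} (hk : k = 1 ∨ k = -1) :
    ¬ rem n x (x + (k : ℤ)) := by
  have key : ∀ {a b : ℤ}, x = (a : ZMod n) → x + (k : ℤ) = (b : ZMod n) → -8 ≤ b - a → b - a ≤ 8 →
      b - a = k := by
    intro a b h1 h2 h3 h4
    by_contra hne
    refine ne_cast hn (x := (a : ZMod n)) (a := b - a) (b := k) hne (by omega) (by omega) ?_
    rw [← h1, h2, h1]; push_cast; ring
  rintro (⟨h1, h2⟩ | ⟨h1, h2⟩ | ⟨h1, h2⟩ | ⟨h1, h2⟩)
  · have := key (a := 0) (b := 5) (by simpa using h1) (by simpa using h2) (by norm_num) (by norm_num)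
    omega
  · have := key (a := 5) (b := 0) (by simpa using h1) (by simpa using h2) (by norm_num) (by norm_num)
    omega
  · have := key (a := 1) (b := 6) (by simpa using h1) (by simpa using h2) (by norm_num) (by norm_num)
    omega
  · have := key (a := 6) (b := 1) (by simpa using h1) (by simpa using h2) (by norm_num) (by norm_num)
    omega

lemma rem_five {x : ZMod n} (hn : 17 ≤ n) (h : rem n x (x + 5)) : x = 0 ∨ x = 1 := by
  have h10 : (10 : ZMod n) ≠ 0 := by
    have := ne_cast hn (x := 0) (a := 10) (b := 0) (by norm_num) (by norm_num) (by norm_num)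
    simpa using this
  rcases h with ⟨h1, h2⟩ | ⟨h1, h2⟩ | ⟨h1, h2⟩ | ⟨h1, h2⟩
  · exact Or.inl h1
  · exfalso; apply h10; rw [h1] at h2; linear_combination h2
  · exact Or.inr h1
  · exfalso; apply h10; rw [h1] at h2; linear_combination h2

lemma TO_tri (ho : Odd n) {i : ZMod n} (hi : i ≠ 1) :
    Tri (HP n hn ε) (some i) (some (i + 2)) (some (i + 4)) := by
  have pm : ∀ x : ZMod n, ∀ k : ℤ, k = 1 ∨ k = -1 → (HP n hn ε).Adj (some x) (some (x + (k : ℤ))) := by
    intro x k hk
    refine ss.mpr ⟨⟨k, ?_, rfl⟩, not_rem_pm hn hk⟩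
    rcases hk with rfl | rfl <;> decide
  have c1 : i + 2 + ((1 : ℤ) : ZMod n) = i + 3 := by push_cast; ring
  have c2 : i + 4 + ((-1 : ℤ) : ZMod n) = i + 3 := by push_cast; ring
  have c3 : i + ((1 : ℤ) : ZMod n) = i + 1 := by push_cast; ring
  have c4 : i + 2 + ((-1 : ℤ) : ZMod n) = i + 1 := by push_cast; ring
  have c5 : i + ((-1 : ℤ) : ZMod n) = i - 1 := by push_cast; ring
  have c6 : i + 4 + ((1 : ℤ) : ZMod n) = i + 5 := by push_cast; ring
  refine ⟨⟨some (i + 3), ?_, ?_, ?_⟩, ?_, ⟨some (i + 1), ?_, ?_, ?_⟩⟩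
  · have := pm (i + 2) 1 (Or.inl rfl); rwa [c1] at this
  · have := pm (i + 4) (-1) (Or.inr rfl); rwa [c2] at this
  · intro h
    have := not_R_cast hn ho (x := i) (k := 3) (by decide) (by norm_num) (by norm_num) (by norm_num)
    exact this (by simpa using (ss.mp h).1)
  · by_cases h2 : i = 2
    · refine ⟨some (i + 5), ?_, ?_, ?_⟩
      · refine ss.mpr ⟨⟨5, by decide, by push_cast; rfl⟩, ?_⟩
        intro hr
        rcases rem_five hn hr with h | h
        · rw [h2] at h
          have := ne_cast hn (x := 0) (a := 2) (b := 0) (by norm_num) (by norm_num) (by norm_num)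
          exact this (by simpa using h)
        · exact hi h
      · have := pm (i + 4) 1 (Or.inl rfl); rwa [c6] at this
      · intro h
        have := not_R_cast hn ho (x := i + 2) (k := 3) (by decide) (by norm_num) (by norm_num)
          (by norm_num)
        have e : i + 2 + ((3 : ℤ) : ZMod n) = i + 5 := by push_cast; ring
        rw [e] at this
        exact this (ss.mp h).1
    · refine ⟨some (i - 1), ?_, ?_, ?_⟩
      · have := pm i (-1) (Or.inr rfl); rwa [c5] at this
      · refine ss.mpr ⟨⟨-5, by decide, by push_cast; ring⟩, ?_⟩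
        intro hr
        have hr' := hr.symm
        have e : i + 4 = (i - 1) + 5 := by ring
        rw [e] at hr'
        rcases rem_five hn hr' with h | h
        · exact hi (by linear_combination h)
        · exact h2 (by linear_combination h)
      · intro h
        have := not_R_cast hn ho (x := i + 2) (k := -3) (by decide) (by norm_num) (by norm_num)
          (by norm_num)
        have e : i + 2 + ((-3 : ℤ) : ZMod n) = i - 1 := by push_cast; ring
        rw [e] at this
        exact this (ss.mp h).1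
  · have := pm i 1 (Or.inl rfl); rwa [c3] at this
  · have := pm (i + 2) (-1) (Or.inr rfl); rwa [c4] at this
  · intro h
    have := not_R_cast hn ho (x := i + 4) (k := -3) (by decide) (by norm_num) (by norm_num)
      (by norm_num)
    have e : i + 4 + ((-3 : ℤ) : ZMod n) = i + 1 := by push_cast; ring
    rw [e] at this
    exact this (ss.mp h).1

lemma TO_irr (ho : Odd n) {i : ZMod n} (hi : i ≠ 1) : Irr (HP n hn ε)ᶜ (TO n i) := by
  have h := irr_of_tri (TO_tri (hn := hn) (ε := ε) ho hi)
  rwa [← TO_eq (rfl : TS n i = {i, i + 2, i + 4})] at h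

lemma XT_tri (ho : Odd n) (hε : ε) : Tri (HP n hn ε) none (some 1) (some 3) := by
  have h1 : ((1 : ℤ) : ZMod n) = 1 := by simp
  refine ⟨⟨some 2, ?_, ?_, ?_⟩, ⟨some 4, ?_, ?_, ?_⟩, ⟨some 0, ?_, ?_, ?_⟩⟩
  · refine ss.mpr ⟨⟨1, by decide, by push_cast; norm_num⟩, ?_⟩
    have := not_rem_pm (x := 1) hn (k := 1) (Or.inl rfl)
    have e : (1 : ZMod n) + ((1 : ℤ) : ZMod n) = 2 := by push_cast; norm_num
    rwa [e] at this
  · refine ss.mpr ⟨⟨-1, by decide, by push_cast; norm_num⟩, ?_⟩
    have := not_rem_pm (x := 3) hn (k := -1) (Or.inr rfl)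
    have e : (3 : ZMod n) + ((-1 : ℤ) : ZMod n) = 2 := by push_cast; norm_num
    rwa [e] at this
  · intro h
    rcases (ns.mp h).2 with h | h
    · have := ne_cast hn (x := 0) (a := 2) (b := 0) (by norm_num) (by norm_num) (by norm_num)
      exact this (by simpa using h)
    · have := ne_cast hn (x := 0) (a := 2) (b := 4) (by norm_num) (by norm_num) (by norm_num)
      exact this (by simpa using h)
  · exact ns.mpr ⟨hε, Or.inr rfl⟩
  · refine ss.mpr ⟨⟨1, by decide, by push_cast; norm_num⟩, ?_⟩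
    have := not_rem_pm (x := 3) hn (k := 1) (Or.inl rfl)
    have e : (3 : ZMod n) + ((1 : ℤ) : ZMod n) = 4 := by push_cast; norm_num
    rwa [e] at this
  · intro h
    have := not_R_cast hn ho (x := 1) (k := 3) (by decide) (by norm_num) (by norm_num)
      (by norm_num)
    have e : (1 : ZMod n) + ((3 : ℤ) : ZMod n) = 4 := by push_cast; norm_num
    rw [e] at this
    exact this (ss.mp h).1
  · exact ns.mpr ⟨hε, Or.inl rfl⟩
  · refine ss.mpr ⟨⟨-1, by decide, by push_cast; norm_num⟩, ?_⟩
    have := not_rem_pm (x := 1) hn (k := -1) (Or.inr rfl)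
    have e : (1 : ZMod n) + ((-1 : ℤ) : ZMod n) = 0 := by push_cast; norm_num
    rwa [e] at this
  · intro h
    have := not_R_cast hn ho (x := 3) (k := -3) (by decide) (by norm_num) (by norm_num)
      (by norm_num)
    have e : (3 : ZMod n) + ((-3 : ℤ) : ZMod n) = 0 := by push_cast; norm_num
    rw [e] at this
    exact this (ss.mp h).1

lemma XT_irr (ho : Odd n) (hε : ε) : Irr (HP n hn ε)ᶜ (XT n) := irr_of_tri (XT_tri ho hε)

/-- the classification of irredundant triples -/
lemma cls (ho : Odd n) {a b c : Option (ZMod n)} (h : Tri (HP n hn ε) a b c) :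
    (∃ x y z, a = some x ∧ b = some y ∧ c = some z ∧ ∃ i, i ≠ 1 ∧ TS n i = {x, y, z}) ∨
    (ε ∧ ({a, b, c} : Finset (Option (ZMod n))) = XT n ∧ (a = none ∨ b = none ∨ c = none)) := by
  rcases a with _ | x
  · right
    obtain ⟨hε, h' | h'⟩ := noneCls ho h
    · exact ⟨hε, by rw [h'.1, h'.2]; rfl, Or.inl rfl⟩
    · refine ⟨hε, ?_, Or.inl rfl⟩
      rw [h'.1, h'.2]
      ext t; simp only [XT, Finset.mem_insert, Finset.mem_singleton]; tauto
  rcases b with _ | y
  · right
    obtain ⟨hε, h' | h'⟩ := noneCls ho h.swap12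
    · refine ⟨hε, ?_, Or.inr (Or.inl rfl)⟩
      rw [h'.1, h'.2]
      ext t; simp only [XT, Finset.mem_insert, Finset.mem_singleton]; tauto
    · refine ⟨hε, ?_, Or.inr (Or.inl rfl)⟩
      rw [h'.1, h'.2]
      ext t; simp only [XT, Finset.mem_insert, Finset.mem_singleton]; tauto
  rcases c with _ | z
  · right
    obtain ⟨hε, h' | h'⟩ := noneCls ho h.swap23.swap12
    · refine ⟨hε, ?_, Or.inr (Or.inr rfl)⟩
      rw [h'.1, h'.2]
      ext t; simp only [XT, Finset.mem_insert, Finset.mem_singleton]; tauto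
    · refine ⟨hε, ?_, Or.inr (Or.inr rfl)⟩
      rw [h'.1, h'.2]
      ext t; simp only [XT, Finset.mem_insert, Finset.mem_singleton]; tauto
  left
  exact ⟨x, y, z, rfl, rfl, rfl, someCls ho h⟩

lemma TS_PL (hn : 17 ≤ n) {i x y z : ZMod n} (h : TS n i = {x, y, z}) (hxy : x ≠ y) (hxz : x ≠ z)
    (hyz : y ≠ z) : ∃ p ∈ PL, y = x + (p.1 : ℤ) ∧ z = x + (p.2 : ℤ) := by
  have hx : x ∈ TS n i := by rw [h]; simp
  have hy : y ∈ TS n i := by rw [h]; simp
  have hz : z ∈ TS n i := by rw [h]; simp
  rw [mem_TS] at hx hy hz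
  obtain ⟨a, ha, rfl⟩ := hx
  obtain ⟨b, hb, rfl⟩ := hy
  obtain ⟨c, hc, rfl⟩ := hz
  have h1 : a ≠ b := by rintro rfl; exact hxy rfl
  have h2 : a ≠ c := by rintro rfl; exact hxz rfl
  have h3 : b ≠ c := by rintro rfl; exact hyz rfl
  have key : ∀ a ∈ ({0, 2, 4} : Finset ℤ), ∀ b ∈ ({0, 2, 4} : Finset ℤ), ∀ c ∈ ({0, 2, 4} : Finset ℤ),
      a ≠ b → a ≠ c → b ≠ c → (b - a, c - a) ∈ PL := by decide
  exact ⟨_, key a ha b hb c hc h1 h2 h3, by push_cast; ring, by push_cast; ring⟩

lemma four (ho : Odd n) {a b c d : Option (ZMod n)} (hcd : c ≠ d) (h1 : Tri (HP n hn ε) a b c)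
    (h2 : Tri (HP n hn ε) a b d) (h3 : Tri (HP n hn ε) a c d) : False := by
  obtain ⟨n1, n2, n3⟩ := h1.ne
  obtain ⟨n4, n5, n6⟩ := h2.ne
  rcases cls ho h1 with ⟨x, y, z, rfl, rfl, rfl, i, _, hi⟩ | ⟨_, e1, f1⟩
  · rcases cls ho h2 with ⟨x', y', w, ex, ey, rfl, j, _, hj⟩ | ⟨_, e2, f2⟩
    · rw [Option.some.injEq] at ex ey
      subst ex; subst ey
      rcases cls ho h3 with ⟨x', y', w', ex, ey, ew, k, _, hk⟩ | ⟨_, e3, f3⟩
      · rw [Option.some.injEq] at ex ey ew
        subst ex; subst ey; subst ew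
        have g : ∀ {u v : ZMod n}, (some u : Option (ZMod n)) ≠ some v → u ≠ v :=
          fun h e => h (by rw [e])
        obtain ⟨p, hp, p1, p2⟩ := TS_PL hn hi (g n1) (g n2) (g n3)
        obtain ⟨q, hq, q1, q2⟩ := TS_PL hn hj (g n4) (g n5) (g n6)
        obtain ⟨r, hr, r1, r2⟩ := TS_PL hn hk (g n2) (g n5) (g hcd)
        exact g hcd (PL4 hn ho hp hq hr p1 p2 q1 q2 r1 r2)
      · rcases f3 with f | f | f <;> cases f
    · rcases f2 with f | f | f
      · cases f
      · cases f
      · subst f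
        rcases cls ho h3 with ⟨x', y', w', ex, ey, ew, k, _, hk⟩ | ⟨_, e3, f3⟩
        · cases ew
        · have : some y ∈ ({some x, some z, none} : Finset (Option (ZMod n))) := by
            rw [e3, ← e2]; simp
          simp only [Finset.mem_insert, Finset.mem_singleton] at this
          rcases this with h | h | h
          · exact n1 h.symm
          · exact n3 h
          · cases h
  · rcases f1 with f | f | f
    · subst f
      rcases cls ho h2 with ⟨x', y', w, ex, ey, rfl, j, _, hj⟩ | ⟨_, e2, f2⟩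
      · cases ex
      · have : c ∈ ({none, b, d} : Finset (Option (ZMod n))) := by rw [e2, ← e1]; simp
        simp only [Finset.mem_insert, Finset.mem_singleton] at this
        rcases this with h | h | h
        · exact n2 h.symm
        · exact n3 h.symm
        · exact hcd h
    · subst f
      rcases cls ho h2 with ⟨x', y', w, ex, ey, rfl, j, _, hj⟩ | ⟨_, e2, f2⟩
      · cases ey
      · have : c ∈ ({a, none, d} : Finset (Option (ZMod n))) := by rw [e2, ← e1]; simp
        simp only [Finset.mem_insert, Finset.mem_singleton] at this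
        rcases this with h | h | h
        · exact n2 h.symm
        · exact n3 h.symm
        · exact hcd h
    · subst f
      rcases cls ho h3 with ⟨x', y', w, ex, ey, rfl, j, _, hj⟩ | ⟨_, e3, f3⟩
      · cases ey
      · have : b ∈ ({a, none, d} : Finset (Option (ZMod n))) := by rw [e3, ← e1]; simp
        simp only [Finset.mem_insert, Finset.mem_singleton] at this
        rcases this with h | h | h
        · exact n1 h.symm
        · exact n3 h
        · exact n6 h

lemma TO_slide (hi : True) (i : ZMod n) : Slide (HP n hn ε)ᶜ (TO n i) (TO n (i + 2)) := by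
  have hstep := TS_step hn i
  have hne : i ≠ i + 6 := by
    have := ne_cast hn (x := i) (a := 0) (b := 6) (by norm_num) (by norm_num) (by norm_num)
    simpa using this
  refine ⟨some i, some_mem_TO.mpr (by simp [TS]), some (i + 6), some_mem_TO.mpr (by rw [hstep]; simp),
    ?_, ?_⟩
  · rw [SimpleGraph.compl_adj]
    exact ⟨fun h => hne (Option.some.inj h), fun h => not_R_six hn i (ss.mp h).1⟩
  · unfold TO
    rw [hstep, Finset.image_insert, Finset.image_erase (Option.some_injective _)]

lemma TO_share (hn : 17 ≤ n) {i j : ZMod n} {p q : Option (ZMod n)} (hpq : p ≠ q) (hp : p ∈ TO n i)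
    (hq : q ∈ TO n i) (hp' : p ∈ TO n j) (hq' : q ∈ TO n j) : j = i ∨ j = i + 2 ∨ j = i - 2 := by
  rw [mem_TO] at hp hq
  obtain ⟨x, hx, rfl⟩ := hp
  obtain ⟨y, hy, rfl⟩ := hq
  rw [some_mem_TO] at hp' hq'
  exact TS_share hn (fun h => hpq (by rw [h])) hx hy hp' hq'

lemma TO_inj (hn : 17 ≤ n) (ho : Odd n) {i j : ZMod n} (h : TO n i = TO n j) : i = j :=
  TS_inj hn ho (Finset.image_injective (Option.some_injective _) h)

lemma one_three (hn : 17 ≤ n) {i : ZMod n} (h1 : (1 : ZMod n) ∈ TS n i) (h3 : (3 : ZMod n) ∈ TS n i) :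
    i = 1 ∨ i = -1 := by
  rw [mem_TS] at h1 h3
  obtain ⟨a, ha, e1⟩ := h1
  obtain ⟨b, hb, e3⟩ := h3
  obtain ⟨_, a1, a2⟩ := key2b a ha
  obtain ⟨_, b1, b2⟩ := key2b b hb
  have hab : b = a + 2 := by
    by_contra hne
    refine ne_cast hn (x := i) hne (by omega) (by omega) ?_
    push_cast
    linear_combination e1 - e3
  have ha' : a = 0 ∨ a = 2 ∨ a = 4 := by simpa using ha
  rcases ha' with rfl | rfl | rfl
  · left; rw [e1]; simp
  · right
    push_cast at e1
    linear_combination -e1
  · omega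

end

end Pool.Agent.KS6_40.IR
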