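import Pool.Agent.KS6_40.IR.SmallBase

namespace Pool.Agent.KS6_40.IR

instance (n : ℕ) : DecidableRel (SimpleGraph.pathGraph n).Adj := fun a b =>
  decidable_of_iff _ SimpleGraph.pathGraph_adj.symm

def H7 : List ℕ := [112, 352, 184, 276, 13, 7, 131, 324, 138]
def F7 : Fin 7 → Finset (Fin 9) :=
  ![{0, 3, 7}, {0, 1, 3}, {1, 2, 3}, {2, 3, 4}, {2, 4, 6}, {4, 6, 8}, {4, 5, 8}]
theorem path7 : Nonempty (SimpleGraph.pathGraph 7 ≃g irGraph (HS 9 H7)ᶜ) := by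
  refine small (HS 9 H7) F7 (SimpleGraph.pathGraph 7) ⟨0, by omega⟩ ?_ ?_ ?_ ?_ ?_ ?_
  · decide +kernel
  · decide +kernel
  · decide +kernel
  · decide +kernel
  · decide +kernel
  · decide +kernel

def H8 : List ℕ := [168, 224, 432, 49, 76, 15, 274, 263, 196]
def F8 : Fin 8 → Finset (Fin 9) :=
  ![{0, 1, 4}, {0, 4, 8}, {0, 5, 8}, {0, 3, 5}, {3, 5, 6}, {3, 6, 7}, {2, 3, 7}, {2, 7, 8}]
theorem path8 : Nonempty (SimpleGraph.pathGraph 8 ≃g irGraph (HS 9 H8)ᶜ) := by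
  refine small (HS 9 H8) F8 (SimpleGraph.pathGraph 8) ⟨0, by omega⟩ ?_ ?_ ?_ ?_ ?_ ?_
  · decide +kernel
  · decide +kernel
  · decide +kernel
  · decide +kernel
  · decide +kernel
  · decide +kernel

def H9 : List ℕ := [172, 76, 323, 275, 296, 145, 134, 353, 156]
def F9 : Fin 9 → Finset (Fin 9) :=
  ![{0, 5, 7}, {0, 1, 7}, {1, 4, 7}, {1, 2, 4}, {1, 2, 6}, {2, 5, 6}, {3, 5, 6}, {3, 6, 8}, {3, 4, 8}]
theorem path9 : Nonempty (SimpleGraph.pathGraph 9 ≃g irGraph (HS 9 H9)ᶜ) := by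
  refine small (HS 9 H9) F9 (SimpleGraph.pathGraph 9) ⟨0, by omega⟩ ?_ ?_ ?_ ?_ ?_ ?_
  · decide +kernel
  · decide +kernel
  · decide +kernel
  · decide +kernel
  · decide +kernel
  · decide +kernel

def H10 : List ℕ := [14, 297, 177, 531, 44, 86, 544, 260, 130, 72]
def F10 : Fin 10 → Finset (Fin 10) :=
  ![{1, 4, 7}, {0, 1, 7}, {0, 1, 3}, {1, 3, 6}, {2, 3, 6}, {2, 3, 8}, {2, 5, 8}, {2, 4, 5}, {4, 5, 9}, {0, 5, 9}]
theorem path10 : Nonempty (SimpleGraph.pathGraph 10 ≃g irGraph (HS 10 H10)ᶜ) := by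
  refine small (HS 10 H10) F10 (SimpleGraph.pathGraph 10) ⟨0, by omega⟩ ?_ ?_ ?_ ?_ ?_ ?_
  · decide +kernel
  · decide +kernel
  · decide +kernel
  · decide +kernel
  · decide +kernel
  · decide +kernel

def H11 : List ℕ := [40, 900, 330, 261, 192, 833, 564, 18, 46, 98]
def F11 : Fin 11 → Finset (Fin 10) :=
  ![{6, 7, 8}, {6, 7, 9}, {5, 6, 9}, {3, 5, 6}, {1, 3, 5}, {1, 4, 5}, {1, 2, 4}, {1, 2, 8}, {2, 3, 8}, {2, 8, 9}, {0, 2, 9}]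
theorem path11 : Nonempty (SimpleGraph.pathGraph 11 ≃g irGraph (HS 10 H11)ᶜ) := by
  refine small (HS 10 H11) F11 (SimpleGraph.pathGraph 11) ⟨0, by omega⟩ ?_ ?_ ?_ ?_ ?_ ?_
  · decide +kernel
  · decide +kernel
  · decide +kernel
  · decide +kernel
  · decide +kernel
  · decide +kernel

def H12 : List ℕ := [660, 812, 75, 390, 97, 82, 564, 521, 10, 195]
def F12 : Fin 12 → Finset (Fin 10) :=
  ![{0, 1, 3}, {1, 3, 8}, {1, 2, 3}, {1, 2, 4}, {1, 4, 7}, {4, 6, 7}, {4, 5, 6}, {3, 5, 6}, {0, 3, 5}, {0, 5, 9}, {0, 7, 9}, {7, 8, 9}]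
theorem path12 : Nonempty (SimpleGraph.pathGraph 12 ≃g irGraph (HS 10 H12)ᶜ) := by
  refine small (HS 10 H12) F12 (SimpleGraph.pathGraph 12) ⟨0, by omega⟩ ?_ ?_ ?_ ?_ ?_ ?_
  · decide +kernel
  · decide +kernel
  · decide +kernel
  · decide +kernel
  · decide +kernel
  · decide +kernel

def H13 : List ℕ := [328, 496, 616, 85, 1066, 1046, 15, 1026, 3, 1028, 688]
def F13 : Fin 13 → Finset (Fin 11) :=
  ![{3, 5, 8}, {3, 5, 6}, {0, 3, 6}, {2, 3, 6}, {2, 3, 10}, {1, 2, 10}, {0, 1, 2}, {0, 1, 4}, {1, 4, 5}, {4, 5, 10}, {4, 5, 6}, {4, 6, 9}, {6, 7, 9}]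
theorem path13 : Nonempty (SimpleGraph.pathGraph 13 ≃g irGraph (HS 11 H13)ᶜ) := by
  refine small (HS 11 H13) F13 (SimpleGraph.pathGraph 13) ⟨0, by omega⟩ ?_ ?_ ?_ ?_ ?_ ?_
  · decide +kernel
  · decide +kernel
  · decide +kernel
  · decide +kernel
  · decide +kernel
  · decide +kernel

def H14 : List ℕ := [1376, 464, 672, 1280, 802, 1109, 547, 518, 27, 212, 41]
def F14 : Fin 14 → Finset (Fin 11) :=
  ![{1, 3, 5}, {0, 1, 5}, {0, 5, 10}, {0, 5, 6}, {5, 6, 7}, {5, 7, 8}, {7, 8, 9}, {2, 7, 9}, {0, 2, 9}, {0, 1, 2}, {1, 2, 4}, {1, 4, 8}, {4, 8, 10}, {6, 8, 10}]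
theorem path14 : Nonempty (SimpleGraph.pathGraph 14 ≃g irGraph (HS 11 H14)ᶜ) := by
  refine small (HS 11 H14) F14 (SimpleGraph.pathGraph 14) ⟨0, by omega⟩ ?_ ?_ ?_ ?_ ?_ ?_
  · decide +kernel
  · decide +kernel
  · decide +kernel
  · decide +kernel
  · decide +kernel
  · decide +kernel

def H15 : List ℕ := [324, 1100, 291, 610, 1376, 1052, 27, 1536, 21, 136, 178]
def F15 : Fin 15 → Finset (Fin 11) :=
  ![{0, 1, 4}, {0, 4, 5}, {4, 5, 10}, {5, 9, 10}, {6, 9, 10}, {2, 6, 10}, {2, 8, 10}, {0, 2, 8}, {0, 2, 3}, {2, 3, 4}, {3, 4, 7}, {1, 3, 7}, {1, 3, 6}, {1, 6, 8}, {5, 6, 8}]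
theorem path15 : Nonempty (SimpleGraph.pathGraph 15 ≃g irGraph (HS 11 H15)ᶜ) := by
  refine small (HS 11 H15) F15 (SimpleGraph.pathGraph 15) ⟨0, by omega⟩ ?_ ?_ ?_ ?_ ?_ ?_
  · decide +kernel
  · decide +kernel
  · decide +kernel
  · decide +kernel
  · decide +kernel
  · decide +kernel

end Pool.Agent.KS6_40.IR
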