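import Pool.Agent.KS6_40.IR.Basic

namespace Pool.Agent.KS6_40.IR

/-- the graph given by a list of neighbourhood masks -/
def HS (N : ℕ) (nb : List ℕ) : SimpleGraph (Fin N) :=
  SimpleGraph.fromRel (fun a b => (nb.getD a.val 0).testBit b.val = true)

instance (N : ℕ) (nb : List ℕ) : DecidableRel (HS N nb).Adj := fun a b =>
  inferInstanceAs (Decidable (a ≠ b ∧ (_ ∨ _)))

def Irr' {N : ℕ} (H : SimpleGraph (Fin N)) (S : Finset (Fin N)) : Prop :=
  ∀ v ∈ S, ∃ w, ¬ H.Adj v w ∧ ∀ u ∈ S, u ≠ v → H.Adj u w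

instance {N : ℕ} (H : SimpleGraph (Fin N)) [DecidableRel H.Adj] (S : Finset (Fin N)) :
    Decidable (Irr' H S) := by unfold Irr'; infer_instance

instance {N : ℕ} (H : SimpleGraph (Fin N)) [DecidableRel H.Adj] (x y z : Fin N) :
    Decidable (Tri H x y z) := by unfold Tri; infer_instance

/-- slides along non-edges of the complement -/
def Sl {N : ℕ} (H : SimpleGraph (Fin N)) (D D' : Finset (Fin N)) : Prop :=
  ∃ v ∈ D, ∃ v' ∈ D', (v ≠ v' ∧ ¬ H.Adj v v') ∧ D' = insert v' (D.erase v)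

instance {N : ℕ} (H : SimpleGraph (Fin N)) [DecidableRel H.Adj] (S S' : Finset (Fin N)) :
    Decidable (Sl H S S') := by unfold Sl; infer_instance

lemma Tri.sw12 {V : Type} {H : SimpleGraph V} {x y z : V} (h : Tri H x y z) : Tri H y x z :=
  ⟨h.2.1, h.1, by obtain ⟨w, a, b, c⟩ := h.2.2; exact ⟨w, b, a, c⟩⟩

lemma Tri.sw23 {V : Type} {H : SimpleGraph V} {x y z : V} (h : Tri H x y z) : Tri H x z y :=
  ⟨by obtain ⟨w, a, b, c⟩ := h.1; exact ⟨w, b, a, c⟩, h.2.2, h.2.1⟩

theorem small {N k : ℕ} (H : SimpleGraph (Fin N)) (F : Fin k → Finset (Fin N))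
    (P : SimpleGraph (Fin k)) (i0 : Fin k)
    (c1 : ∀ i j, F i = F j → i = j)
    (c2 : ∀ i, (F i).card = 3)
    (c3 : ∀ i, Irr' H (F i))
    (c4 : ∀ x y z : Fin N, x < y → y < z → Tri H x y z → ∃ i, F i = {x, y, z})
    (c5 : ∀ i d, d ∉ F i → ¬ Irr' H (insert d (F i)))
    (c6 : ∀ i j, i ≠ j → (P.Adj i j ↔ (Sl H (F i) (F j) ∨ Sl H (F j) (F i)))) :
    Nonempty (P ≃g irGraph Hᶜ) := by
  have hcls : ∀ x y z, Tri H x y z → ∃ i, F i = {x, y, z} := by
    intro x y z h
    obtain ⟨n1, n2, n3⟩ := h.ne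
    have key : ∀ a b c : Fin N, Tri H a b c → ({a, b, c} : Finset (Fin N)) = {x, y, z} →
        a < b → b < c → ∃ i, F i = {x, y, z} := by
      intro a b c h1 h2 h3 h4
      rw [← h2]; exact c4 a b c h3 h4 h1
    rcases lt_or_gt_of_ne n1 with h1 | h1 <;> rcases lt_or_gt_of_ne n2 with h2 | h2 <;>
      rcases lt_or_gt_of_ne n3 with h3 | h3
    · exact key x y z h rfl h1 h3
    · exact key x z y h.sw23 (by ext t; simp only [Finset.mem_insert, Finset.mem_singleton]; tauto) h2 h3
    · exact absurd (h1.trans h3) (not_lt.mpr h2.le)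
    · exact key z x y h.sw23.sw12 (by ext t; simp only [Finset.mem_insert, Finset.mem_singleton]; tauto) h2 h1
    · exact key y x z h.sw12 (by ext t; simp only [Finset.mem_insert, Finset.mem_singleton]; tauto) h1 h2
    · exact absurd (h2.trans h3) (not_lt.mpr h1.le)
    · exact key y z x h.sw12.sw23 (by ext t; simp only [Finset.mem_insert, Finset.mem_singleton]; tauto) h3 h2
    · exact key z y x h.sw12.sw23.sw12
        (by ext t; simp only [Finset.mem_insert, Finset.mem_singleton]; tauto) h3 h1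
  refine main P i0 F (fun i j h => c1 i j h) c2 (fun i => (irr_compl H _).mpr (c3 i)) hcls ?_ ?_
  · intro S hS
    by_contra hc
    push Not at hc
    obtain ⟨T, hT, hcard⟩ := Finset.exists_subset_card_eq (show 3 ≤ S.card by omega)
    obtain ⟨x, y, z, hxy, hxz, hyz, rfl⟩ := Finset.card_eq_three.mp hcard
    obtain ⟨i, hi⟩ := hcls x y z (tri_of_irr hS (hT (by simp)) (hT (by simp)) (hT (by simp))
      hxy hxz hyz)
    obtain ⟨d, hd, hdn⟩ : ∃ d ∈ S, d ∉ ({x, y, z} : Finset (Fin N)) := by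
      by_contra hcon
      push Not at hcon
      have : S.card ≤ 3 := by rw [← hcard]; exact Finset.card_le_card hcon
      omega
    refine c5 i d (by rw [hi]; exact hdn) ?_
    have hsub : insert d (F i) ⊆ S := by
      rw [hi]; intro t ht
      rcases Finset.mem_insert.mp ht with rfl | ht
      · exact hd
      · exact hT ht
    have hS' := (irr_compl H S).mp hS
    intro v hv
    obtain ⟨w, w1, w2⟩ := hS' v (hsub hv)
    exact ⟨w, w1, fun u hu hne => w2 u (hsub hu) hne⟩
  · intro i j hij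
    rw [c6 i j hij]
    have e : ∀ D D' : Finset (Fin N), Sl H D D' ↔ Slide Hᶜ D D' := by
      intro D D'
      unfold Sl Slide
      simp only [SimpleGraph.compl_adj]
    rw [e, e]

end Pool.Agent.KS6_40.IR
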