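import Pool.Agent.KS6_40.IR.SmallBase

namespace Pool.Agent.KS6_40.IR

def HC14 : List ℕ := [4116, 8232, 10249, 5126, 4353, 8706, 2176, 1088, 9744, 6432, 2440, 1604, 8729, 4390]
def FC14 : Fin 14 → Finset (Fin 14) :=
  ![{0, 3, 8}, {0, 8, 11}, {0, 11, 12}, {0, 4, 12}, {4, 10, 12}, {2, 4, 10}, {2, 4, 9}, {1, 2, 9}, {1, 9, 10}, {1, 10, 13}, {1, 5, 13}, {5, 11, 13}, {3, 5, 11}, {3, 5, 8}]
theorem cycle14 : Nonempty (SimpleGraph.circulantGraph ({1} : Set (Fin 14)) ≃g irGraph (HS 14 HC14)ᶜ) := by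
  refine small (HS 14 HC14) FC14 (SimpleGraph.circulantGraph ({1} : Set (Fin 14))) ⟨0, by omega⟩ ?_ ?_ ?_ ?_ ?_ ?_
  · decide +kernel
  · decide +kernel
  · decide +kernel
  · decide +kernel
  · decide +kernel
  · simp only [SimpleGraph.circulantGraph_adj, Set.mem_singleton_iff]; decide +kernel

def HC16 : List ℕ := [2, 1, 18624, 33984, 19040, 34192, 1052, 2092, 33312, 16656, 18536, 33940, 32768, 16384, 42516, 22824]
def FC16 : Fin 16 → Finset (Fin 16) :=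
  ![{2, 5, 9}, {2, 5, 15}, {5, 8, 15}, {5, 6, 15}, {6, 9, 15}, {6, 9, 10}, {3, 6, 10}, {3, 8, 10}, {3, 4, 8}, {3, 4, 14}, {4, 9, 14}, {4, 7, 14}, {7, 8, 14}, {7, 8, 11}, {2, 7, 11}, {2, 9, 11}]
theorem cycle16 : Nonempty (SimpleGraph.circulantGraph ({1} : Set (Fin 16)) ≃g irGraph (HS 16 HC16)ᶜ) := by
  refine small (HS 16 HC16) FC16 (SimpleGraph.circulantGraph ({1} : Set (Fin 16))) ⟨0, by omega⟩ ?_ ?_ ?_ ?_ ?_ ?_
  · decide +kernel
  · decide +kernel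
  · decide +kernel
  · decide +kernel
  · decide +kernel
  · simp only [SimpleGraph.circulantGraph_adj, Set.mem_singleton_iff]; decide +kernel

def HC18 : List ℕ := [4390, 8729, 209, 226, 8198, 4105, 4108, 8204, 3585, 3330, 8960, 4864, 2145, 1170]
def FC18 : Fin 18 → Finset (Fin 14) :=
  ![{0, 4, 10}, {0, 7, 10}, {0, 5, 7}, {0, 5, 12}, {0, 9, 12}, {3, 9, 12}, {2, 3, 12}, {2, 3, 13}, {2, 8, 13}, {1, 8, 13}, {1, 4, 13}, {1, 4, 6}, {1, 6, 11}, {1, 5, 11}, {5, 8, 11}, {8, 9, 11}, {8, 9, 10}, {4, 9, 10}]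
theorem cycle18 : Nonempty (SimpleGraph.circulantGraph ({1} : Set (Fin 18)) ≃g irGraph (HS 14 HC18)ᶜ) := by
  refine small (HS 14 HC18) FC18 (SimpleGraph.circulantGraph ({1} : Set (Fin 18))) ⟨0, by omega⟩ ?_ ?_ ?_ ?_ ?_ ?_
  · decide +kernel
  · decide +kernel
  · decide +kernel
  · decide +kernel
  · decide +kernel
  · simp only [SimpleGraph.circulantGraph_adj, Set.mem_singleton_iff]; decide +kernel

def HC20 : List ℕ := [33840, 6240, 8640, 17040, 777, 1539, 3078, 2316, 33940, 6200, 8545, 17090, 514, 1028, 2056, 257]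
def FC20 : Fin 20 → Finset (Fin 16) :=
  ![{0, 1, 6}, {0, 6, 9}, {6, 8, 9}, {7, 8, 9}, {2, 7, 8}, {1, 2, 7}, {1, 7, 10}, {7, 9, 10}, {4, 9, 10}, {3, 4, 9}, {2, 3, 4}, {2, 4, 11}, {4, 10, 11}, {5, 10, 11}, {0, 5, 10}, {0, 3, 5}, {3, 5, 8}, {5, 8, 11}, {6, 8, 11}, {1, 6, 11}]
theorem cycle20 : Nonempty (SimpleGraph.circulantGraph ({1} : Set (Fin 20)) ≃g irGraph (HS 16 HC20)ᶜ) := by
  refine small (HS 16 HC20) FC20 (SimpleGraph.circulantGraph ({1} : Set (Fin 20))) ⟨0, by omega⟩ ?_ ?_ ?_ ?_ ?_ ?_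
  · decide +kernel
  · decide +kernel
  · decide +kernel
  · decide +kernel
  · decide +kernel
  · simp only [SimpleGraph.circulantGraph_adj, Set.mem_singleton_iff]; decide +kernel

end Pool.Agent.KS6_40.IR
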